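import Mathlib
import Pool.Agent.Lib.CFT.YDefs
import Pool.Agent.Lib.CFT.ZD

/-! # CFT, module C: prime number theorem for Hecke characters (definitions)

fib n: the primes of norm n. cf w: the coefficients of the Dirichlet series of a function w on the primes. Ps w s: the series of the w v Nv^(-s).
Er w s: the series of the -log (1 - w v Nv^(-s)) - w v Nv^(-s). Ext w A: the Dirichlet series of w v log Nv minus A / (s - 1) has a continuous extension to
the closed half plane re s >= 1. pr: the values at the primes of a function on the ideals. -/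

open NumberField IsDedekindDomain Complex

namespace CFTC

open CFT

variable {K : Type} [Field K] [NumberField K]

theorem fib_fin (n : ℕ) : {v : Pr K | Nm v = n}.Finite :=
  (Ideal.finite_setOfPred_absNorm_eq (S := 𝓞 K) n).preimage CFTZ.dd_inj.injOn

/-- The primes of norm n. -/
noncomputable def fib (n : ℕ) : Finset (Pr K) := (fib_fin n).toFinset

theorem mem_fib (n : ℕ) (v : Pr K) : v ∈ fib n ↔ Nm v = n := by
  unfold fib
  rw [Set.Finite.mem_toFinset]
  rfl

/-- The coefficients of the Dirichlet series of a function on the primes. -/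
noncomputable def cf (w : Pr K → ℂ) (n : ℕ) : ℂ := ∑ v ∈ fib n, w v

/-- The Dirichlet series of a function on the primes. -/
noncomputable def Ps (w : Pr K → ℂ) (s : ℂ) : ℂ := ∑' v : Pr K, w v * (Nm v : ℂ) ^ (-s)

/-- The correction term. -/
noncomputable def Er (w : Pr K → ℂ) (s : ℂ) : ℂ :=
  ∑' v : Pr K, (-log (1 - w v * (Nm v : ℂ) ^ (-s)) - w v * (Nm v : ℂ) ^ (-s))

/-- The Dirichlet series of the w v log Nv minus A / (s - 1) has a continuous extension to re s >= 1. -/
def Ext (w : Pr K → ℂ) (A : ℂ) : Prop := ∃ G : ℂ → ℂ, ContinuousOn G {s | 1 ≤ s.re} ∧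
  ∀ s : ℂ, 1 < s.re → LSeries (LSeries.logMul (cf w)) s = G s + A / (s - 1)

/-- The values at the primes. -/
def pr (h : Ideal (𝓞 K) →*₀ ℂ) (v : Pr K) : ℂ := h v.asIdeal

end CFTC
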