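import Mathlib
import Pool.Agent.Lib.CFTC.C0

/-! # CFT module C, chunk C1: Dirichlet series over the primes as L-series -/

open NumberField IsDedekindDomain Complex

namespace CFTC

open CFT

variable {K : Type} [Field K] [NumberField K]

/-- PROOF. `|w v Nv^(-s)| <= Nv^(-re s)` (`Complex.norm_natCast_cpow_of_pos`, `CFTZ.dd_two_le`), `CFTZ.dd_summable`. -/
theorem summ_w {w : Pr K → ℂ} {B : ℝ} (hw : ∀ v, ‖w v‖ ≤ B) {s : ℂ} (hs : 1 < s.re) :
    Summable fun v : Pr K => w v * (Nm v : ℂ) ^ (-s) := by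
  have h1 : Summable fun v : Pr K => B * (Nm v : ℝ) ^ (-s.re) := (CFTZ.dd_summable (K := K) s.re hs).mul_left B
  refine Summable.of_norm_bounded h1 fun v => ?_
  have h2 : 2 ≤ Nm v := CFTZ.dd_two_le v
  rw [norm_mul, Complex.norm_natCast_cpow_of_pos (by omega), Complex.neg_re]
  exact mul_le_mul_of_nonneg_right (hw v) (by positivity)

/-- PROOF. Sum over the fibres of the norm (`Equiv.sigmaFiberEquiv`, `HasSum.sigma`; compare the proof of `CFTZ.RD3_zeta` in Lib/CFT/ZA.lean); the sum over the fibre of `n` is `LSeries.term (cf w) s n` for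
every `n` (for `n = 0` the fibre is empty: `2 ≤ Nm v`). -/
theorem cf_hasSum {w : Pr K → ℂ} {B : ℝ} (hw : ∀ v, ‖w v‖ ≤ B) {s : ℂ} (hs : 1 < s.re) : LSeriesHasSum (cf w) s (Ps w s) := by
  have h1 := (summ_w hw hs).hasSum
  rw [← (Equiv.sigmaFiberEquiv (fun v : Pr K => Nm v)).hasSum_iff] at h1
  refine h1.sigma fun n => ?_
  have hf : Finite {v : Pr K // Nm v = n} := (fib_fin n).to_subtype
  have := Fintype.ofFinite {v : Pr K // Nm v = n}
  have h2 : LSeries.term (cf w) s n = ∑ v : {v : Pr K // Nm v = n}, w v * (Nm (v : Pr K) : ℂ) ^ (-s) := by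
    rw [← Finset.sum_subtype (fib n) (mem_fib n) fun v => w v * (Nm v : ℂ) ^ (-s)]
    rcases Nat.eq_zero_or_pos n with rfl | hn
    · rw [LSeries.term_zero]
      refine (Finset.sum_eq_zero fun v hv => ?_).symm
      have h3 : 2 ≤ Nm v := CFTZ.dd_two_le v
      rw [mem_fib] at hv
      omega
    · rw [LSeries.term_of_ne_zero (by omega), cf, Finset.sum_div]
      refine Finset.sum_congr rfl fun v hv => ?_
      rw [mem_fib] at hv
      rw [hv, Complex.cpow_neg, div_eq_mul_inv]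
  rw [h2]
  exact hasSum_fintype _

/-- PROOF. `LSeries.abscissaOfAbsConv_le_of_forall_lt_LSeriesSummable` and `cf_hasSum`. -/
theorem cf_absc {w : Pr K → ℂ} {B : ℝ} (hw : ∀ v, ‖w v‖ ≤ B) : LSeries.abscissaOfAbsConv (cf w) ≤ 1 := by
  have h1 : ∀ y : ℝ, (1 : ℝ) < y → LSeriesSummable (cf w) y := fun y hy =>
    (cf_hasSum hw (s := (y : ℂ)) (by rwa [Complex.ofReal_re])).summable
  exact LSeries.abscissaOfAbsConv_le_of_forall_lt_LSeriesSummable h1

/-- PROOF. `LSeries_hasDerivAt` (with `cf_absc`), `Ps w = LSeries (cf w)` near `s` (`cf_hasSum`; the half plane is open). -/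
theorem ps_deriv {w : Pr K → ℂ} {B : ℝ} (hw : ∀ v, ‖w v‖ ≤ B) {s : ℂ} (hs : 1 < s.re) :
    HasDerivAt (Ps w) (-(LSeries (LSeries.logMul (cf w)) s)) s := by
  have h1 : LSeries.abscissaOfAbsConv (cf w) < s.re :=
    lt_of_le_of_lt (cf_absc hw) (by exact_mod_cast hs)
  refine (LSeries_hasDerivAt h1).congr_of_eventuallyEq ?_
  have h2 : {z : ℂ | 1 < z.re} ∈ nhds s := (isOpen_lt continuous_const Complex.continuous_re).mem_nhds hs
  filter_upwards [h2] with z hz
  exact (cf_hasSum hw hz).tsum_eq.symm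

/-- PROOF. `LSeries.abscissaOfAbsConv_logMul` and `cf_absc`. -/
theorem lm_absc {w : Pr K → ℂ} {B : ℝ} (hw : ∀ v, ‖w v‖ ≤ B) : LSeries.abscissaOfAbsConv (LSeries.logMul (cf w)) ≤ 1 := by
  rw [LSeries.abscissaOfAbsConv_logMul]
  exact cf_absc hw

end CFTC
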