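import Mathlib
import Pool.Agent.Lib.CFTC.C0

/-! # CFT module C, chunk C2: the correction term is analytic -/

open NumberField IsDedekindDomain Complex

namespace CFTC

open CFT

variable {K : Type} [Field K] [NumberField K]

theorem c2_le (v : Pr K) {a : ℝ} (ha : 1 / 2 ≤ a) : (Nm v : ℝ) ^ (-a) ≤ 3 / 4 := by
  have h2 : (2 : ℝ) ≤ (Nm v : ℝ) := by exact_mod_cast CFTZ.dd_two_le v
  have h3 : (Nm v : ℝ) ^ (-a) ≤ (Nm v : ℝ) ^ (-(1 / 2 : ℝ)) :=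
    Real.rpow_le_rpow_of_exponent_le (by linarith) (by linarith)
  refine h3.trans ?_
  rw [Real.rpow_neg (by linarith), ← Real.sqrt_eq_rpow]
  have h4 : (4 / 3 : ℝ) ≤ Real.sqrt (Nm v) := by
    apply Real.le_sqrt_of_sq_le
    linarith
  calc (Real.sqrt (Nm v))⁻¹ ≤ (4 / 3 : ℝ)⁻¹ := inv_anti₀ (by norm_num) h4
    _ = 3 / 4 := by norm_num

theorem c2_z {w : Pr K → ℂ} (hw : ∀ v, ‖w v‖ ≤ 1) {a : ℝ} {s : ℂ} (hs : a ≤ s.re) (v : Pr K) :
    ‖w v * (Nm v : ℂ) ^ (-s)‖ ≤ (Nm v : ℝ) ^ (-a) := by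
  have h2 : 2 ≤ Nm v := CFTZ.dd_two_le v
  have h3 : (1 : ℝ) ≤ (Nm v : ℝ) := by exact_mod_cast (show 1 ≤ Nm v by omega)
  rw [norm_mul, Complex.norm_natCast_cpow_of_pos (by omega), Complex.neg_re]
  calc ‖w v‖ * (Nm v : ℝ) ^ (-s.re) ≤ 1 * (Nm v : ℝ) ^ (-s.re) := mul_le_mul_of_nonneg_right (hw v) (by positivity)
    _ = (Nm v : ℝ) ^ (-s.re) := one_mul _
    _ ≤ (Nm v : ℝ) ^ (-a) := Real.rpow_le_rpow_of_exponent_le h3 (by linarith)

theorem c2_bd {w : Pr K → ℂ} (hw : ∀ v, ‖w v‖ ≤ 1) {a : ℝ} (ha : 1 / 2 ≤ a) {s : ℂ} (hs : a ≤ s.re) (v : Pr K) :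
    ‖-log (1 - w v * (Nm v : ℂ) ^ (-s)) - w v * (Nm v : ℂ) ^ (-s)‖ ≤ 2 * (Nm v : ℝ) ^ (-(2 * a)) := by
  have h1 := c2_z hw hs v
  have h2 := c2_le v ha
  set z : ℂ := w v * (Nm v : ℂ) ^ (-s) with hz
  have h0 := norm_nonneg z
  have h3 : ‖-z‖ < 1 := by
    rw [norm_neg]
    linarith
  have h4 := Complex.norm_log_one_add_sub_self_le h3
  have h5 : -log (1 - z) - z = -(log (1 + -z) - -z) := by
    rw [← sub_eq_add_neg]
    ring
  rw [h5, norm_neg]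
  refine h4.trans ?_
  rw [norm_neg]
  have h6 : (1 - ‖z‖)⁻¹ ≤ 4 := by
    rw [inv_le_comm₀ (by linarith) (by norm_num)]
    linarith
  have h7 : (Nm v : ℝ) ^ (-(2 * a)) = ((Nm v : ℝ) ^ (-a)) ^ 2 := by
    rw [← Real.rpow_natCast, ← Real.rpow_mul (Nat.cast_nonneg _)]
    congr 1
    push_cast
    ring
  rw [h7]
  have h8 : ‖z‖ ^ 2 ≤ ((Nm v : ℝ) ^ (-a)) ^ 2 := pow_le_pow_left₀ h0 h1 2
  have h9 : ‖z‖ ^ 2 * (1 - ‖z‖)⁻¹ ≤ ‖z‖ ^ 2 * 4 := mul_le_mul_of_nonneg_left h6 (sq_nonneg _)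
  linarith

theorem c2_sum {a : ℝ} (ha : 1 / 2 < a) : Summable fun v : Pr K => 2 * (Nm v : ℝ) ^ (-(2 * a)) :=
  (CFTZ.dd_summable (K := K) (2 * a) (by linarith)).mul_left 2

/-- PROOF. Let `1/2 < re s0` and let `a` be strictly between `1/2` and `re s0`. On the open set `{s | a < re s}` we have, with `z = w v Nv^(-s)`, `|z| <= Nv^(-a) <= 2^(-1/2) <= 3/4` (`CFTZ.dd_two_le`;
`Complex.norm_natCast_cpow_of_pos`), so `|-log (1 - z) - z| = |log (1 + -z) - -z| <= |z|^2 (1 - |z|)⁻¹ / 2 <= 2 |z|^2 <= 2 Nv^(-2a)` (`Complex.norm_log_one_add_sub_self_le`), which is summable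
(`CFTZ.dd_summable`, `2a > 1`). Each term is differentiable (`1 - z` has positive real part: `Complex.mem_slitPlane_of_pos`... ). `differentiableOn_tsum_of_summable_norm`. -/
theorem er_diff {w : Pr K → ℂ} (hw : ∀ v, ‖w v‖ ≤ 1) : DifferentiableOn ℂ (Er w) {s | 1 / 2 < s.re} := by
  intro s0 hs0
  have hs1 : 1 / 2 < s0.re := hs0
  obtain ⟨a, ha1, ha2⟩ : ∃ a : ℝ, 1 / 2 < a ∧ a < s0.re := exists_between hs1
  have hU : IsOpen {s : ℂ | a < s.re} := isOpen_lt continuous_const Complex.continuous_re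
  have h1 : DifferentiableOn ℂ (Er w) {s : ℂ | a < s.re} := by
    refine differentiableOn_tsum_of_summable_norm (c2_sum (K := K) ha1) (fun v => ?_) hU fun v s hs => c2_bd hw ha1.le (le_of_lt hs) v
    intro s hs
    have hs' : a ≤ s.re := le_of_lt hs
    have h2 : 2 ≤ Nm v := CFTZ.dd_two_le v
    have h3 : (Nm v : ℂ) ≠ 0 := by
      have : Nm v ≠ 0 := by omega
      exact_mod_cast this
    have h4 : DifferentiableAt ℂ (fun s : ℂ => w v * (Nm v : ℂ) ^ (-s)) s :=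
      ((differentiableAt_id.neg).const_cpow (Or.inl h3)).const_mul _
    have h5 : 1 - w v * (Nm v : ℂ) ^ (-s) ∈ slitPlane := by
      rw [mem_slitPlane_iff]
      left
      rw [Complex.sub_re, Complex.one_re]
      have h6 := c2_z hw hs' v
      have h7 := c2_le v ha1.le
      have h8 := Complex.re_le_norm (w v * (Nm v : ℂ) ^ (-s))
      linarith
    exact (((((differentiableAt_const _).sub h4).clog h5).neg).sub h4).differentiableWithinAt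
  exact (h1.differentiableAt (hU.mem_nhds ha2)).differentiableWithinAt

/-- PROOF. As in `er_diff` (one point). -/
theorem er_summ {w : Pr K → ℂ} (hw : ∀ v, ‖w v‖ ≤ 1) {s : ℂ} (hs : 1 / 2 < s.re) :
    Summable fun v : Pr K => (-log (1 - w v * (Nm v : ℂ) ^ (-s)) - w v * (Nm v : ℂ) ^ (-s)) := by
  obtain ⟨a, ha1, ha2⟩ : ∃ a : ℝ, 1 / 2 < a ∧ a < s.re := exists_between hs
  exact Summable.of_norm_bounded (c2_sum (K := K) ha1) fun v => c2_bd hw ha1.le ha2.le v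

end CFTC
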