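import Mathlib
import Pool.Agent.Lib.CFTC.C1
import Pool.Agent.Lib.CFTC.C2

/-! # CFT module C, chunk C3: the Euler product as an exponential -/

open NumberField IsDedekindDomain Complex

namespace CFTC

open CFT

variable {K : Type} [Field K] [NumberField K]

theorem c3_tm (h : Ideal (𝓞 K) →*₀ ℂ) (s : ℂ) (a : Ideal (𝓞 K)) :
    CFTZ.tm (CFTZ.tmH h (s.im * I)) (s.re : ℂ) a = CFTZ.tm h s a := by
  show h a * (Ideal.absNorm a : ℂ) ^ (-(s.im * I)) * (Ideal.absNorm a : ℂ) ^ (-(s.re : ℂ)) = h a * (Ideal.absNorm a : ℂ) ^ (-s)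
  by_cases ha : a = ⊥
  · subst ha
    have h0 : h ⊥ = 0 := map_zero h
    rw [h0, zero_mul, zero_mul, zero_mul]
  · have h1 : (Ideal.absNorm a : ℂ) ≠ 0 := by
      have : Ideal.absNorm a ≠ 0 := fun h => ha (Ideal.absNorm_eq_zero_iff.1 h)
      exact_mod_cast this
    rw [mul_assoc, ← Complex.cpow_add _ _ h1]
    congr 2
    have h2 := Complex.re_add_im s
    linear_combination -h2

theorem c3_norm (h : Ideal (𝓞 K) →*₀ ℂ) (hh : ∀ a, ‖h a‖ ≤ 1) (t : ℝ) (a : Ideal (𝓞 K)) :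
    ‖CFTZ.tmH h (t * I) a‖ ≤ 1 := by
  show ‖h a * (Ideal.absNorm a : ℂ) ^ (-(t * I))‖ ≤ 1
  by_cases ha : a = ⊥
  · subst ha
    have h0 : h ⊥ = 0 := map_zero h
    rw [h0, zero_mul, norm_zero]
    exact zero_le_one
  · have h1 : 0 < Ideal.absNorm a := Nat.pos_of_ne_zero fun h => ha (Ideal.absNorm_eq_zero_iff.1 h)
    rw [norm_mul, Complex.norm_natCast_cpow_of_pos h1]
    have h2 : (-(t * I : ℂ)).re = 0 := by simp
    rw [h2, Real.rpow_zero, mul_one]
    exact hh a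

/-- PROOF. Write `s = σ + i t`. For the twisted function `CFTZ.tmH h (i t)` (completely multiplicative, absolute value `<= 1`: `Complex.norm_natCast_cpow_of_pos`, and `h ⊥ = 0`) we have
`tm (tmH h (it)) σ a = tm h s a` (`Complex.cpow_add`; both sides are 0 for `a = ⊥`), so `CFTZ.RD1_lim` at the real point `σ` is the claim. -/
theorem eu_lim (h : Ideal (𝓞 K) →*₀ ℂ) (hh : ∀ a, ‖h a‖ ≤ 1) {s : ℂ} (hs : 1 < s.re) :
    Filter.Tendsto (fun T : Finset (Pr K) => (∏ v ∈ T, (1 - pr h v * (Nm v : ℂ) ^ (-s))) * CFTY.Lc h s) Filter.atTop (nhds 1) := by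
  have h1 := CFTZ.RD1_lim (CFTZ.tmH h (s.im * I)) (c3_norm h hh s.im) s.re hs
  have h2 : CFTZ.Ls (CFTZ.tmH h (s.im * I)) s.re = CFTY.Lc h s := tsum_congr fun a => c3_tm h s a
  rw [h2] at h1
  refine h1.congr fun T => ?_
  congr 1
  refine Finset.prod_congr rfl fun v _ => ?_
  rw [c3_tm]
  rfl

/-- PROOF. The series of the `-log (1 - z v)`, `z v = pr h v Nv^(-s)`, is summable (`summ_w`, `er_summ`, sum of both) with sum `Ps + Er`; the exponential of the partial sum over `T` is the inverse of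
`∏ (1 - z v)` (`Complex.exp_log`, `1 - z v ≠ 0`), so the products tend to `exp (-(Ps + Er))`; by `eu_lim` `exp (-(Ps + Er)) * Lc h s = 1`. -/
theorem exp_eq (h : Ideal (𝓞 K) →*₀ ℂ) (hh : ∀ a, ‖h a‖ ≤ 1) {s : ℂ} (hs : 1 < s.re) :
    Complex.exp (Ps (pr h) s + Er (pr h) s) = CFTY.Lc h s := by
  have hw : ∀ v, ‖pr h v‖ ≤ 1 := fun v => hh v.asIdeal
  have h1 := (summ_w hw hs).hasSum.add (er_summ hw (s := s) (by linarith)).hasSum
  have h2 : Filter.Tendsto (fun T : Finset (Pr K) => ∏ v ∈ T, (1 - pr h v * (Nm v : ℂ) ^ (-s))) Filter.atTop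
      (nhds (Complex.exp (-(Ps (pr h) s + Er (pr h) s)))) := by
    have h3 : Filter.Tendsto (fun T : Finset (Pr K) => ∑ v ∈ T, (pr h v * (Nm v : ℂ) ^ (-s) +
        (-log (1 - pr h v * (Nm v : ℂ) ^ (-s)) - pr h v * (Nm v : ℂ) ^ (-s)))) Filter.atTop
        (nhds (Ps (pr h) s + Er (pr h) s)) := h1
    refine ((Complex.continuous_exp.tendsto _).comp h3.neg).congr fun T => ?_
    show Complex.exp (-∑ v ∈ T, _) = _
    rw [← Finset.sum_neg_distrib, Complex.exp_sum]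
    refine Finset.prod_congr rfl fun v _ => ?_
    have h4 := c2_z hw (a := s.re) (s := s) le_rfl v
    have h5 := c2_le v (a := s.re) (by linarith)
    have h6 : 1 - pr h v * (Nm v : ℂ) ^ (-s) ≠ 0 := by
      intro h0
      rw [sub_eq_zero] at h0
      rw [← h0, norm_one] at h4
      linarith
    have h7 : -(pr h v * (Nm v : ℂ) ^ (-s) + (-log (1 - pr h v * (Nm v : ℂ) ^ (-s)) - pr h v * (Nm v : ℂ) ^ (-s))) =
        log (1 - pr h v * (Nm v : ℂ) ^ (-s)) := by ring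
    rw [h7, Complex.exp_log h6]
  have h8 := tendsto_nhds_unique (h2.mul_const (CFTY.Lc h s)) (eu_lim h hh hs)
  rw [Complex.exp_neg, inv_mul_eq_one₀ (Complex.exp_ne_zero _)] at h8
  exact h8

end CFTC
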