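import Mathlib
import Pool.Agent.Lib.CFTC.C3

/-! # CFT module C, chunk C4: continuous extension of the logarithmic derivative -/

open NumberField IsDedekindDomain Complex

namespace CFTC

open CFT

variable {K : Type} [Field K] [NumberField K]

/-- PROOF. `U` is an open set which contains the closed half plane and `H` is analytic on `U`, without zeros on the closed half plane. For `re s > 1`: `H s = (s - 1)^k exp (Ps s + Er s)` (`exp_eq`), so
`H' s / H s = k / (s - 1) + Ps' s + Er' s` and `Ps' s = -LSeries (logMul cf) s` (`ps_deriv`). So `G s = Er' s - H' s / H s` works: `H'` and `Er'` are continuous on the open sets `U`, `{1/2 < re s}`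
(`DifferentiableOn.deriv`, `DifferentiableOn.contDiffOn`). -/
theorem ext_of (h : Ideal (𝓞 K) →*₀ ℂ) (hh : ∀ a, ‖h a‖ ≤ 1) (k : ℕ) {H : ℂ → ℂ} {U : Set ℂ} (hU : IsOpen U) (hU1 : {s : ℂ | 1 ≤ s.re} ⊆ U)
    (hH : DifferentiableOn ℂ H U) (hL : ∀ s : ℂ, 1 < s.re → H s = (s - 1) ^ k * CFTY.Lc h s) (hne : ∀ s : ℂ, 1 ≤ s.re → H s ≠ 0) :
    Ext (pr h) k := by
  have hw : ∀ v : Pr K, ‖pr h v‖ ≤ 1 := fun v => hh _
  have hV : IsOpen {s : ℂ | 1 / 2 < s.re} := isOpen_lt continuous_const Complex.continuous_re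
  have hVsub : {s : ℂ | 1 ≤ s.re} ⊆ {s : ℂ | 1 / 2 < s.re} := by
    intro s hs
    have h1 : 1 ≤ s.re := hs
    change 1 / 2 < s.re
    linarith
  refine ⟨fun s => deriv (Er (pr h)) s - deriv H s / H s, ?_, ?_⟩
  · have h1 : ContinuousOn (deriv (Er (pr h))) {s : ℂ | 1 / 2 < s.re} := ((er_diff hw).deriv hV).continuousOn
    have h2 : ContinuousOn (deriv H) U := (hH.deriv hU).continuousOn
    exact (h1.mono hVsub).sub ((h2.mono hU1).div (hH.continuousOn.mono hU1) hne)
  · intro s hs
    have hO : IsOpen {s : ℂ | 1 < s.re} := isOpen_lt continuous_const Complex.continuous_re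
    have e1 : H =ᶠ[nhds s] fun z => (z - 1) ^ k * exp (Ps (pr h) z + Er (pr h) z) := by
      filter_upwards [hO.mem_nhds hs] with z hz
      rw [hL z hz, exp_eq h hh hz]
    have hP := ps_deriv hw hs
    have hE : HasDerivAt (Er (pr h)) (deriv (Er (pr h)) s) s :=
      ((er_diff hw).differentiableAt (hV.mem_nhds (hVsub (le_of_lt hs)))).hasDerivAt
    have hD := (((hasDerivAt_id s).sub_const 1).pow k).mul ((hP.add hE).cexp)
    have hdH : deriv H s = _ := e1.deriv_eq.trans hD.deriv
    have hHs : H s = (s - 1) ^ k * exp (Ps (pr h) s + Er (pr h) s) := e1.self_of_nhds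
    have ht : s - 1 ≠ 0 := by
      intro h0
      have h1 : s = 1 := sub_eq_zero.1 h0
      rw [h1, Complex.one_re] at hs
      exact lt_irrefl _ hs
    have hE0 : exp (Ps (pr h) s + Er (pr h) s) ≠ 0 := Complex.exp_ne_zero _
    change LSeries (LSeries.logMul (cf (pr h))) s = deriv (Er (pr h)) s - deriv H s / H s + k / (s - 1)
    rw [hdH, hHs]
    simp only [Pi.add_apply, Pi.pow_apply, id]
    generalize exp (Ps (pr h) s + Er (pr h) s) = E at hE0
    generalize deriv (Er (pr h)) s = e
    generalize LSeries (LSeries.logMul (cf (pr h))) s = L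
    generalize s - 1 = t at ht
    rcases k with _ | m
    · simp only [pow_zero, Nat.cast_zero, zero_mul, one_mul, zero_div, add_zero, zero_add]
      field_simp
      ring
    · rw [Nat.add_sub_cancel, pow_succ]
      have ht2 : t ^ m ≠ 0 := pow_ne_zero _ ht
      field_simp
      ring


end CFTC
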