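import Mathlib
import Pool.Agent.Lib.CFTC.C3

/-! # CFT module C, chunk C5: no zeros on the line re s = 1 (3-4-1) -/

open NumberField IsDedekindDomain Complex

namespace CFTC

open CFT

variable {K : Type} [Field K] [NumberField K]

/-- PROOF. Copy of the private lemma `re_log_comb_nonneg'` in Mathlib/NumberTheory/LSeries/Nonvanishing.lean. -/
theorem c5_comb {a : ℝ} (ha₀ : 0 ≤ a) (ha₁ : a < 1) {z : ℂ} (hz : ‖z‖ = 1) :
    0 ≤ 3 * (-log (1 - a)).re + 4 * (-log (1 - a * z)).re + (-log (1 - a * z ^ 2)).re := by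
  have hac₀ : ‖(a : ℂ)‖ < 1 := by
    simp only [Complex.norm_of_nonneg ha₀, ha₁]
  have hac₁ : ‖a * z‖ < 1 := by rwa [norm_mul, hz, mul_one]
  have hac₂ : ‖a * z ^ 2‖ < 1 := by rwa [norm_mul, norm_pow, hz, one_pow, mul_one]
  rw [← ((hasSum_re <| hasSum_taylorSeries_neg_log hac₀).mul_left 3).add
    ((hasSum_re <| hasSum_taylorSeries_neg_log hac₁).mul_left 4) |>.add
    (hasSum_re <| hasSum_taylorSeries_neg_log hac₂) |>.tsum_eq]
  refine tsum_nonneg fun n ↦ ?_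
  simp only [← ofReal_pow, div_natCast_re, ofReal_re, mul_pow, mul_re, ofReal_im, zero_mul,
    sub_zero]
  rcases n.eq_zero_or_pos with rfl | hn
  · simp
  · simp only [← mul_div_assoc, ← add_div]
    refine div_nonneg ?_ n.cast_nonneg
    rw [← pow_mul, pow_mul', sq, mul_re, ← sq, ← sq, ← sq_norm_sub_sq_re, norm_pow, hz]
    convert! (show 0 ≤ 2 * a ^ n * ((z ^ n).re + 1) ^ 2 by positivity) using 1
    ring

theorem c5_sum {w : Pr K → ℂ} (hw : ∀ v, ‖w v‖ ≤ 1) {s : ℂ} (hs : 1 < s.re) :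
    HasSum (fun v : Pr K => -log (1 - w v * (Nm v : ℂ) ^ (-s))) (Ps w s + Er w s) := by
  have h1 := (summ_w hw hs).hasSum
  have h2 := (er_summ hw (s := s) (by linarith)).hasSum
  have h3 := h1.add h2
  refine h3.congr_fun fun v => ?_
  ring

/-- PROOF. `|Lc| = exp (re (Ps + Er))` (`exp_eq`, `Complex.norm_exp`), `Ps + Er` = the sum of the `-log (1 - z v)` (`summ_w`, `er_summ`); the combination `3 re(..) + 4 re(..) + re(..)` is nonnegative for each `v`: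
if `pr h v ≠ 0` by `c5_comb` with `a = Nv^(-σ)`, `z = pr h v Nv^(-it)`, otherwise only the first term (`-log (1 - a) ≥ 0`) remains. Here `o` is the function with value 1 at every nonzero ideal. -/
theorem c5_prod {o h h2 : Ideal (𝓞 K) →*₀ ℂ} (ho : ∀ v : Pr K, pr o v = 1) (hoo : ∀ a, ‖o a‖ ≤ 1) (hh : ∀ a, ‖h a‖ ≤ 1) (hh2 : ∀ a, ‖h2 a‖ ≤ 1)
    (h01 : ∀ v : Pr K, pr h v = 0 ∨ ‖pr h v‖ = 1) (hsq : ∀ v : Pr K, pr h2 v = pr h v ^ 2) (t : ℝ) {σ : ℝ} (hσ : 1 < σ) :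
    1 ≤ ‖CFTY.Lc o σ‖ ^ 3 * ‖CFTY.Lc h (σ + t * I)‖ ^ 4 * ‖CFTY.Lc h2 (σ + 2 * t * I)‖ := by
  have r0 : 1 < ((σ : ℝ) : ℂ).re := by simpa using hσ
  have r1 : 1 < (σ + t * I : ℂ).re := by simpa using hσ
  have r2 : 1 < (σ + 2 * t * I : ℂ).re := by simpa using hσ
  have s0 := hasSum_re (c5_sum (w := pr o) (fun v => hoo _) r0)
  have s1 := hasSum_re (c5_sum (w := pr h) (fun v => hh _) r1)
  have s2 := hasSum_re (c5_sum (w := pr h2) (fun v => hh2 _) r2)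
  have s3 := ((s0.mul_left 3).add (s1.mul_left 4)).add s2
  have hpos := s3.nonneg (g := _) fun v => by
    have hN : 2 ≤ Nm v := CFTZ.dd_two_le v
    have hN0 : (0 : ℝ) < (Nm v : ℝ) := by
      have : 0 < Nm v := by omega
      exact_mod_cast this
    have hN1 : (1 : ℝ) < (Nm v : ℝ) := by
      have : 1 < Nm v := by omega
      exact_mod_cast this
    have hNc : (Nm v : ℂ) ≠ 0 := by
      have : Nm v ≠ 0 := by omega
      exact_mod_cast this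
    obtain ⟨a, ha⟩ : ∃ a : ℝ, a = (Nm v : ℝ) ^ (-σ) := ⟨_, rfl⟩
    have ha0 : 0 ≤ a := by
      rw [ha]
      positivity
    have ha1 : a < 1 := by
      rw [ha]
      exact Real.rpow_lt_one_of_one_lt_of_neg hN1 (by linarith)
    have hac : (Nm v : ℂ) ^ (-(σ : ℂ)) = (a : ℂ) := by
      rw [ha, Complex.ofReal_cpow hN0.le]
      push_cast
      rfl
    have e0 : pr o v * (Nm v : ℂ) ^ (-((σ : ℝ) : ℂ)) = a := by
      rw [ho, one_mul, hac]
    have e1 : pr h v * (Nm v : ℂ) ^ (-(σ + t * I : ℂ)) = a * (pr h v * (Nm v : ℂ) ^ (-(t * I : ℂ))) := by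
      rw [neg_add, Complex.cpow_add _ _ hNc, hac]
      ring
    have e2 : pr h2 v * (Nm v : ℂ) ^ (-(σ + 2 * t * I : ℂ)) = a * (pr h v * (Nm v : ℂ) ^ (-(t * I : ℂ))) ^ 2 := by
      rw [neg_add, Complex.cpow_add _ _ hNc, hac, hsq, mul_pow, ← Complex.cpow_nat_mul]
      have e3 : -(2 * t * I : ℂ) = ((2 : ℕ) : ℂ) * -(t * I : ℂ) := by
        push_cast
        ring
      rw [e3]
      ring
    show 0 ≤ 3 * (-log (1 - pr o v * (Nm v : ℂ) ^ (-((σ : ℝ) : ℂ)))).re + 4 * (-log (1 - pr h v * (Nm v : ℂ) ^ (-(σ + t * I : ℂ)))).re +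
      (-log (1 - pr h2 v * (Nm v : ℂ) ^ (-(σ + 2 * t * I : ℂ)))).re
    rw [e0, e1, e2]
    rcases h01 v with hv | hv
    · rw [hv]
      simp only [zero_mul, mul_zero, sub_zero, Complex.log_one, neg_zero, Complex.zero_re, add_zero, ne_eq, OfNat.ofNat_ne_zero,
        not_false_eq_true, zero_pow]
      have h4 : (-log (1 - (a : ℂ))).re = -Real.log (1 - a) := by
        rw [← Complex.ofReal_one, ← Complex.ofReal_sub, Complex.neg_re, Complex.log_re, Complex.norm_real,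
          Real.norm_of_nonneg (by linarith)]
      rw [h4]
      have h5 := Real.log_nonpos (x := 1 - a) (by linarith) (by linarith)
      linarith
    · refine c5_comb ha0 ha1 ?_
      rw [norm_mul, hv, one_mul, Complex.norm_natCast_cpow_of_pos (by omega)]
      simp
  rw [← exp_eq o hoo r0, ← exp_eq h hh r1, ← exp_eq h2 hh2 r2, Complex.norm_exp, Complex.norm_exp, Complex.norm_exp,
    ← Real.exp_nat_mul, ← Real.exp_nat_mul, ← Real.exp_add, ← Real.exp_add]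
  rw [Real.one_le_exp_iff]
  push_cast
  exact hpos

/-- PROOF. If `H (1 + i t) = 0` then `|Lc h (σ + i t)| = |H (σ + i t)| <= C' (σ - 1)` for `σ > 1` near 1 (`HasDerivAt.isBigO_sub` or the definition of the derivative), `|Lc o σ| <= C'' / (σ - 1)` (`hp`), so
the product in `c5_prod` is `<= C''^3 C'^4 C (σ - 1)` and tends to 0: contradiction. -/
theorem nv {o h h2 : Ideal (𝓞 K) →*₀ ℂ} (ho : ∀ v : Pr K, pr o v = 1) (hoo : ∀ a, ‖o a‖ ≤ 1) (hh : ∀ a, ‖h a‖ ≤ 1) (hh2 : ∀ a, ‖h2 a‖ ≤ 1)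
    (h01 : ∀ v : Pr K, pr h v = 0 ∨ ‖pr h v‖ = 1) (hsq : ∀ v : Pr K, pr h2 v = pr h v ^ 2) (t : ℝ)
    {B : ℝ} (hp : ∀ σ : ℝ, 1 < σ → σ ≤ 2 → (σ - 1) * ‖CFTY.Lc o σ‖ ≤ B)
    {H : ℂ → ℂ} (hH : DifferentiableAt ℂ H (1 + t * I)) (hL : ∀ s : ℂ, 1 < s.re → H s = CFTY.Lc h s)
    {C : ℝ} (hb : ∀ σ : ℝ, 1 < σ → σ ≤ 2 → ‖CFTY.Lc h2 (σ + 2 * t * I)‖ ≤ C) : H (1 + t * I) ≠ 0 := by
  intro h0
  obtain ⟨c, hc⟩ := hH.isBigO_sub.bound
  rw [h0] at hc
  simp only [sub_zero] at hc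
  have hlim : Filter.Tendsto (fun σ : ℝ => (σ + t * I : ℂ)) (nhdsWithin 1 (Set.Ioi 1)) (nhds (1 + t * I)) := by
    have h4 : Continuous fun σ : ℝ => (σ + t * I : ℂ) := by fun_prop
    have h5 := (h4.tendsto 1).mono_left (nhdsWithin_le_nhds (s := Set.Ioi (1 : ℝ)))
    rwa [Complex.ofReal_one] at h5
  have hev := hlim.eventually hc
  have hB0 : 0 ≤ B := le_trans (by positivity) (hp 2 (by norm_num) le_rfl |>.trans' (by norm_num : (0 : ℝ) ≤ (2 - 1) * ‖CFTY.Lc o ((2 : ℝ) : ℂ)‖))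
  have hC0 : 0 ≤ C := (norm_nonneg _).trans (hb 2 (by norm_num) le_rfl)
  have hlim2 : Filter.Tendsto (fun σ : ℝ => B ^ 3 * |c| ^ 4 * C * (σ - 1)) (nhdsWithin 1 (Set.Ioi 1)) (nhds 0) := by
    have h4 : Continuous fun σ : ℝ => B ^ 3 * |c| ^ 4 * C * (σ - 1) := by fun_prop
    have h5 := (h4.tendsto 1).mono_left (nhdsWithin_le_nhds (s := Set.Ioi (1 : ℝ)))
    rwa [sub_self, mul_zero] at h5
  have h6 : (1 : ℝ) ≤ 0 := by
    refine ge_of_tendsto hlim2 ?_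
    filter_upwards [hev, Ioc_mem_nhdsGT (show (1 : ℝ) < 2 by norm_num)] with σ h1 hσ
    have r1 : 1 < (σ + t * I : ℂ).re := by simpa using hσ.1
    rw [hL _ r1] at h1
    have hn : ‖(σ + t * I : ℂ) - (1 + t * I)‖ = σ - 1 := by
      rw [show (σ + t * I : ℂ) - (1 + t * I) = ((σ - 1 : ℝ) : ℂ) by push_cast; ring, Complex.norm_real,
        Real.norm_of_nonneg (by linarith [hσ.1])]
    rw [hn] at h1
    have hs0 : 0 < σ - 1 := by linarith [hσ.1]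
    have h2' : ‖CFTY.Lc h (σ + t * I)‖ ≤ |c| * (σ - 1) := h1.trans (mul_le_mul_of_nonneg_right (le_abs_self c) hs0.le)
    have h3 := c5_prod ho hoo hh hh2 h01 hsq t hσ.1
    have h4 := hb σ hσ.1 hσ.2
    have h5 := hp σ hσ.1 hσ.2
    have h7 : ((σ - 1) * ‖CFTY.Lc o σ‖) ^ 3 ≤ B ^ 3 := pow_le_pow_left₀ (by positivity) h5 3
    calc (1 : ℝ) ≤ ‖CFTY.Lc o σ‖ ^ 3 * ‖CFTY.Lc h (σ + t * I)‖ ^ 4 * ‖CFTY.Lc h2 (σ + 2 * t * I)‖ := h3
      _ ≤ ‖CFTY.Lc o σ‖ ^ 3 * (|c| * (σ - 1)) ^ 4 * C := by gcongr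
      _ = ((σ - 1) * ‖CFTY.Lc o σ‖) ^ 3 * (|c| ^ 4 * C * (σ - 1)) := by ring
      _ ≤ B ^ 3 * (|c| ^ 4 * C * (σ - 1)) := mul_le_mul_of_nonneg_right h7 (by positivity)
      _ = B ^ 3 * |c| ^ 4 * C * (σ - 1) := by ring
  linarith

end CFTC
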