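import Mathlib
import Pool.Agent.Lib.PNT.PNT

/-! # CFT module C, chunk C6: from weights log n to the counting function (pure) -/

open Filter Topology

namespace CFTC

/-- PROOF. Put `B n = ∑ k ≤ n, b k`, `W n = ∑ k ≤ n, b k log k`. Then `W n ≤ B n log n`, and for `0 < δ < 1`: `B n ≤ B ⌊n^(1-δ)⌋ + W n / ((1 - δ) log n)`, and `B m ≤ W m / log 2 ≤ C m` (because `b 1 = 0`),
so `B n log n / n ≤ C n^(-δ) log n + (W n / n) / (1 - δ)`. Hence `B n log n / n → 1` (compare `Pool.Agent.Lib.PNT.tendsto_piP`, `piP_le` in Lib/PNT/PNT.lean); divide by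
`Pool.Agent.Lib.PNT.primeCounting_nat_tendsto`. -/
theorem transfer {b : ℕ → ℝ} (hb : ∀ n, 0 ≤ b n) (h1 : b 1 = 0)
    (h : Tendsto (fun n : ℕ => (∑ k ∈ Finset.Icc 1 n, b k * Real.log k) / (n : ℝ)) atTop (𝓝 1)) :
    Tendsto (fun n : ℕ => (∑ k ∈ Finset.Icc 1 n, b k) / (Nat.primeCounting n : ℝ)) atTop (𝓝 1) := by
  have hlog2 : 0 < Real.log 2 := Real.log_pos (by norm_num)
  have hlogk : ∀ k : ℕ, 0 ≤ Real.log (k : ℝ) := fun k => Real.log_natCast_nonneg k
  obtain ⟨C, hC⟩ := h.bddAbove_range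
  have hC' : ∀ n : ℕ, (∑ k ∈ Finset.Icc 1 n, b k * Real.log k) ≤ |C| * n := by
    intro n
    rcases Nat.eq_zero_or_pos n with rfl | hn
    · simp
    · have h2 : (∑ k ∈ Finset.Icc 1 n, b k * Real.log k) / (n : ℝ) ≤ C := hC ⟨n, rfl⟩
      have hn' : (0 : ℝ) < n := Nat.cast_pos.2 hn
      rw [div_le_iff₀ hn'] at h2
      exact h2.trans (mul_le_mul_of_nonneg_right (le_abs_self C) hn'.le)
  have hB : ∀ m : ℕ, (∑ k ∈ Finset.Icc 1 m, b k) ≤ |C| / Real.log 2 * m := by
    intro m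
    have h3 : (∑ k ∈ Finset.Icc 1 m, b k) ≤ (∑ k ∈ Finset.Icc 1 m, b k * Real.log k) / Real.log 2 := by
      rw [Finset.sum_div]
      refine Finset.sum_le_sum fun k hk => ?_
      rw [le_div_iff₀ hlog2]
      rcases Nat.lt_or_ge k 2 with hk2 | hk2
      · have hk1 : k = 1 := by
          have := (Finset.mem_Icc.1 hk).1
          omega
        rw [hk1, h1, zero_mul, zero_mul]
      · refine mul_le_mul_of_nonneg_left (Real.log_le_log (by norm_num) ?_) (hb k)
        exact_mod_cast hk2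
    refine h3.trans ?_
    have h4 := hC' m
    rw [div_mul_eq_mul_div]
    exact div_le_div_of_nonneg_right h4 hlog2.le
  have hkey : ∀ (n : ℕ) (δ : ℝ), 2 ≤ n → 0 < δ → δ < 1 → (∑ k ∈ Finset.Icc 1 n, b k) ≤
      |C| / Real.log 2 * (n : ℝ) ^ (1 - δ) + (∑ k ∈ Finset.Icc 1 n, b k * Real.log k) / ((1 - δ) * Real.log n) := by
    intro n δ hn hδ0 hδ1
    have hn1 : (1 : ℝ) < n := by exact_mod_cast hn
    have hn0 : (0 : ℝ) < n := by linarith
    have hlogn : 0 < Real.log n := Real.log_pos hn1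
    have hden : 0 < (1 - δ) * Real.log n := mul_pos (by linarith) hlogn
    rw [← Finset.sum_filter_add_sum_filter_not (Finset.Icc 1 n) (fun k => k ≤ ⌊(n : ℝ) ^ (1 - δ)⌋₊)]
    refine add_le_add ?_ ?_
    · have h5 : (∑ k ∈ Finset.Icc 1 n with k ≤ ⌊(n : ℝ) ^ (1 - δ)⌋₊, b k) ≤ ∑ k ∈ Finset.Icc 1 ⌊(n : ℝ) ^ (1 - δ)⌋₊, b k := by
        refine Finset.sum_le_sum_of_subset_of_nonneg ?_ fun k _ _ => hb k
        intro k hk
        rw [Finset.mem_filter, Finset.mem_Icc] at hk
        exact Finset.mem_Icc.2 ⟨hk.1.1, hk.2⟩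
      refine h5.trans ((hB _).trans ?_)
      exact mul_le_mul_of_nonneg_left (Nat.floor_le (Real.rpow_nonneg hn0.le _)) (by positivity)
    · have h6 : (∑ k ∈ Finset.Icc 1 n with ¬ k ≤ ⌊(n : ℝ) ^ (1 - δ)⌋₊, b k) ≤
          ∑ k ∈ Finset.Icc 1 n with ¬ k ≤ ⌊(n : ℝ) ^ (1 - δ)⌋₊, (b k * Real.log k) / ((1 - δ) * Real.log n) := by
        refine Finset.sum_le_sum fun k hk => ?_
        rw [Finset.mem_filter, not_le] at hk
        have h7 : (n : ℝ) ^ (1 - δ) < k := Nat.lt_of_floor_lt hk.2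
        have h8 : (1 - δ) * Real.log n ≤ Real.log k := by
          rw [← Real.log_rpow hn0]
          exact Real.log_le_log (Real.rpow_pos_of_pos hn0 _) h7.le
        rw [le_div_iff₀ hden]
        exact mul_le_mul_of_nonneg_left h8 (hb k)
      refine h6.trans ?_
      rw [Finset.sum_div]
      refine Finset.sum_le_sum_of_subset_of_nonneg (Finset.filter_subset _ _) fun k _ _ => ?_
      exact div_nonneg (mul_nonneg (hb k) (hlogk k)) hden.le
  have hmain : Tendsto (fun n : ℕ => (∑ k ∈ Finset.Icc 1 n, b k) * Real.log n / n) atTop (𝓝 1) := by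
    rw [tendsto_order]
    constructor
    · intro a ha
      filter_upwards [h.eventually (lt_mem_nhds ha), eventually_gt_atTop 0] with n hn hn0
      refine hn.trans_le (div_le_div_of_nonneg_right ?_ (Nat.cast_nonneg n))
      rw [Finset.sum_mul]
      refine Finset.sum_le_sum fun k hk => ?_
      refine mul_le_mul_of_nonneg_left ?_ (hb k)
      have hk1 := Finset.mem_Icc.1 hk
      exact Real.log_le_log (by exact_mod_cast hk1.1) (by exact_mod_cast hk1.2)
    · intro a ha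
      have hc : ContinuousAt (fun δ : ℝ => 1 / (1 - δ)) 0 :=
        ContinuousAt.div (by fun_prop) (by fun_prop) (by norm_num)
      have h9 : ∀ᶠ δ in 𝓝[>] (0 : ℝ), 1 / (1 - δ) < a := by
        have := hc.tendsto.mono_left (nhdsWithin_le_nhds (s := Set.Ioi (0 : ℝ)))
        simp only [sub_zero, div_one] at this
        exact this.eventually (gt_mem_nhds ha)
      obtain ⟨δ, hδ1, hδ2⟩ := (h9.and (Ioo_mem_nhdsGT (show (0 : ℝ) < 1 by norm_num))).exists
      have h10 : Tendsto (fun n : ℕ => |C| / Real.log 2 * (Real.log n / (n : ℝ) ^ δ) +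
          (∑ k ∈ Finset.Icc 1 n, b k * Real.log k) / (n : ℝ) / (1 - δ)) atTop (𝓝 (|C| / Real.log 2 * 0 + 1 / (1 - δ))) := by
        refine Tendsto.add (Tendsto.const_mul _ ?_) (h.div_const _)
        exact ((isLittleO_log_rpow_atTop hδ2.1).tendsto_div_nhds_zero).comp tendsto_natCast_atTop_atTop
      rw [mul_zero, zero_add] at h10
      filter_upwards [h10.eventually (gt_mem_nhds hδ1), eventually_ge_atTop 2] with n hn hn2
      refine lt_of_le_of_lt ?_ hn
      have hn1 : (1 : ℝ) < n := by exact_mod_cast hn2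
      have hn0 : (0 : ℝ) < n := by linarith
      have hlogn : 0 < Real.log n := Real.log_pos hn1
      have h11 := hkey n δ hn2 hδ2.1 hδ2.2
      have h1δ : 0 < 1 - δ := by linarith [hδ2.2]
      have h12 : (∑ k ∈ Finset.Icc 1 n, b k) * Real.log n / n ≤ (|C| / Real.log 2 * (n : ℝ) ^ (1 - δ) +
          (∑ k ∈ Finset.Icc 1 n, b k * Real.log k) / ((1 - δ) * Real.log n)) * Real.log n / n := by gcongr
      refine h12.trans (le_of_eq ?_)
      rw [Real.rpow_sub hn0, Real.rpow_one]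
      have h13 : (n : ℝ) ^ δ ≠ 0 := (Real.rpow_pos_of_pos hn0 _).ne'
      field_simp
  have hdiv := hmain.div Pool.Agent.Lib.PNT.primeCounting_nat_tendsto one_ne_zero
  rw [div_one] at hdiv
  refine hdiv.congr' ?_
  filter_upwards [eventually_ge_atTop 2] with n hn
  have hn1 : (1 : ℝ) < n := by exact_mod_cast hn
  have hn0 : (n : ℝ) ≠ 0 := by linarith
  have hlogn : Real.log n ≠ 0 := (Real.log_pos hn1).ne'
  rw [Pi.div_apply, div_div_div_cancel_right₀ hn0, mul_div_mul_right _ _ hlogn]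


end CFTC
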