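import Mathlib
import Pool.Agent.Lib.CFTC.C1
import Pool.Agent.Lib.CFTC.C6

/-! # CFT module C, chunk C7: the Tauberian theorem for sums over the primes -/

open NumberField IsDedekindDomain Complex Filter Topology

namespace CFTC

open CFT

variable {K : Type} [Field K] [NumberField K]

theorem c7_summ {w : Pr K → ℂ} {B : ℝ} (hw : ∀ v, ‖w v‖ ≤ B) {s : ℂ} (hs : 1 < s.re) :
    LSeriesSummable (LSeries.logMul (cf w)) s :=
  LSeriesSummable_of_abscissaOfAbsConv_lt_re (lt_of_le_of_lt (lm_absc hw) (by exact_mod_cast hs))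

/-- PROOF. `G` becomes `a • G + b • G'`; `cf` and `logMul` are linear, `LSeries_add`, `LSeries_smul` with summability from `lm_absc` (`LSeriesSummable_of_abscissaOfAbsConv_lt_re`). -/
theorem ext_lin {w w' : Pr K → ℂ} {B B' : ℝ} (hw : ∀ v, ‖w v‖ ≤ B) (hw' : ∀ v, ‖w' v‖ ≤ B') {A A' : ℂ} (h : Ext w A) (h' : Ext w' A') (a b : ℂ) :
    Ext (fun v => a * w v + b * w' v) (a * A + b * A') := by
  obtain ⟨G, hG, hE⟩ := h
  obtain ⟨G', hG', hE'⟩ := h'
  refine ⟨fun s => a * G s + b * G' s, (continuousOn_const.mul hG).add (continuousOn_const.mul hG'), fun s hs => ?_⟩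
  have h1 : LSeries.logMul (cf fun v => a * w v + b * w' v) = a • LSeries.logMul (cf w) + b • LSeries.logMul (cf w') := by
    funext n
    unfold cf
    simp only [LSeries.logMul, Pi.add_apply, Pi.smul_apply, smul_eq_mul]
    rw [Finset.sum_add_distrib, ← Finset.mul_sum, ← Finset.mul_sum]
    ring
  rw [h1, LSeries_add ((c7_summ hw hs).smul a) ((c7_summ hw' hs).smul b), LSeries_smul, LSeries_smul, hE s hs, hE' s hs]
  ring

/-- PROOF. `G` becomes `conj (G (conj s))`; `LSeries.term (conj ∘ f) s n = conj (LSeries.term f (conj s) n)` (`Complex.cpow_conj`, `Complex.natCast_arg`), `Complex.conj_tsum`. -/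
theorem ext_conj {w : Pr K → ℂ} {A : ℂ} (h : Ext w A) : Ext (fun v => (starRingEnd ℂ) (w v)) ((starRingEnd ℂ) A) := by
  obtain ⟨G, hG, hE⟩ := h
  refine ⟨fun s => (starRingEnd ℂ) (G ((starRingEnd ℂ) s)), ?_, fun s hs => ?_⟩
  · refine Complex.continuous_conj.comp_continuousOn (hG.comp Complex.continuous_conj.continuousOn fun s hs => ?_)
    show (1 : ℝ) ≤ ((starRingEnd ℂ) s).re
    rw [Complex.conj_re]
    exact hs
  · have hs' : 1 < ((starRingEnd ℂ) s).re := by rwa [Complex.conj_re]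
    have h1 : LSeries (LSeries.logMul (cf fun v => (starRingEnd ℂ) (w v))) s =
        (starRingEnd ℂ) (LSeries (LSeries.logMul (cf w)) ((starRingEnd ℂ) s)) := by
      unfold LSeries
      rw [Complex.conj_tsum]
      refine tsum_congr fun n => ?_
      rcases Nat.eq_zero_or_pos n with rfl | hn
      · rw [LSeries.term_zero, LSeries.term_zero, map_zero]
      · rw [LSeries.term_of_ne_zero (by omega), LSeries.term_of_ne_zero (by omega), map_div₀,
          Complex.cpow_conj _ _ (by rw [Complex.natCast_arg]; exact Real.pi_pos.ne), Complex.conj_conj, Complex.conj_natCast]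
        congr 1
        unfold cf
        simp only [LSeries.logMul]
        rw [map_mul, map_sum, ← Complex.natCast_log, Complex.conj_ofReal]
    rw [h1, hE _ hs', map_add, map_div₀, map_sub, Complex.conj_conj, map_one]

theorem c7_real (u : Pr K → ℝ) (n : ℕ) : LSeries.logMul (cf fun v => (u v : ℂ)) n = (((∑ v ∈ fib n, u v) * Real.log n : ℝ) : ℂ) := by
  unfold cf
  simp only [LSeries.logMul]
  rw [Complex.ofReal_mul, Complex.ofReal_sum, ← Complex.natCast_log]
  ring

theorem c7_sum (u : Pr K → ℝ) (x : ℕ) : ∑ k ∈ Finset.Icc 1 x, ∑ v ∈ fib k, u v = ∑ᶠ v ∈ {v : Pr K | Nm v ≤ x}, u v := by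
  classical
  have h1 : (Finset.Icc 1 x : Set ℕ).PairwiseDisjoint (fun k => (fib k : Finset (Pr K))) := by
    intro i _ j _ hij
    rw [Function.onFun, Finset.disjoint_left]
    intro v hi hj
    rw [mem_fib] at hi hj
    exact hij (hi.symm.trans hj)
  rw [← Finset.sum_biUnion h1]
  have h2 : {v : Pr K | Nm v ≤ x} = (((Finset.Icc 1 x).biUnion fun k => (fib k : Finset (Pr K))) : Set (Pr K)) := by
    ext v
    rw [Finset.mem_coe, Finset.mem_biUnion]
    constructor
    · intro hv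
      have h3 : 2 ≤ Nm v := CFTZ.dd_two_le v
      exact ⟨Nm v, Finset.mem_Icc.2 ⟨by omega, hv⟩, (mem_fib _ _).2 rfl⟩
    · rintro ⟨k, hk, hv⟩
      rw [mem_fib] at hv
      rw [Finset.mem_Icc] at hk
      show Nm v ≤ x
      rw [hv]
      exact hk.2
  rw [h2, finsum_mem_coe_finset]

/-- PROOF. `cf (fun v => u v) n = ((∑ v ∈ fib n, u v : ℝ) : ℂ)`; `Pool.Agent.Lib.PNT.wiener_ikehara_nat` with `a n = (∑ v ∈ fib n, u v) * log n`, `A = 1` (summability from `lm_absc`), then `transfer` with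
`b n = ∑ v ∈ fib n, u v`, and `∑ k ∈ Icc 1 n, ∑ v ∈ fib k, u v` = the sum over `{v | Nm v ≤ n}` (`Finset.sum_biUnion` or `Finset.sum_fiberwise`; `finsum_mem_eq_finite_toFinset_sum`). -/
theorem tau {u : Pr K → ℝ} {B : ℝ} (h0 : ∀ v, 0 ≤ u v) (hB : ∀ v, u v ≤ B) (h : Ext (fun v : Pr K => (u v : ℂ)) 1) :
    Tendsto (fun x : ℕ => (∑ᶠ v ∈ {v : Pr K | Nm v ≤ x}, u v) / (Nat.primeCounting x : ℝ)) atTop (𝓝 1) := by
  obtain ⟨G, hG, hE⟩ := h
  have hw : ∀ v : Pr K, ‖(u v : ℂ)‖ ≤ B := fun v => by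
    rw [Complex.norm_real, Real.norm_of_nonneg (h0 v)]
    exact hB v
  have hcoe : (fun n : ℕ => (((∑ v ∈ fib n, u v) * Real.log n : ℝ) : ℂ)) = LSeries.logMul (cf fun v : Pr K => (u v : ℂ)) :=
    funext fun n => (c7_real u n).symm
  have h1 := Pool.Agent.Lib.PNT.wiener_ikehara_nat (fun n => (∑ v ∈ (fib n : Finset (Pr K)), u v) * Real.log n)
    (fun n => mul_nonneg (Finset.sum_nonneg fun v _ => h0 v) (Real.log_natCast_nonneg n)) 1 G
    (fun σ hσ => by
      rw [hcoe]
      exact c7_summ hw (by rwa [Complex.ofReal_re])) hG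
    (fun s hs => by
      rw [hcoe, hE s hs, Complex.ofReal_one])
  have h2 := transfer (b := fun n => ∑ v ∈ (fib n : Finset (Pr K)), u v) (fun n => Finset.sum_nonneg fun v _ => h0 v) (by
    refine Finset.sum_eq_zero fun v hv => ?_
    have h3 : 2 ≤ Nm v := CFTZ.dd_two_le v
    rw [mem_fib] at hv
    omega) h1
  refine h2.congr fun x => ?_
  rw [c7_sum]

end CFTC
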