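import Mathlib
import Pool.Agent.Lib.CFTC.C7

/-! # CFT module C, chunk C8: mean value zero -/

open NumberField IsDedekindDomain Complex Filter Topology

namespace CFTC

open CFT

variable {K : Type} [Field K] [NumberField K]

theorem nm_fin (x : ℕ) : {v : Pr K | Nm v ≤ x}.Finite := by
  exact (Ideal.finite_setOfPred_absNorm_le (S := 𝓞 K) x).preimage CFTZ.dd_inj.injOn


/-- A real function with values in [-1, 1] and Ext u 0 has mean value zero. -/
theorem c8_real {f : Pr K → ℝ} (hf : ∀ v, |f v| ≤ 1) (h1 : Ext (fun _ : Pr K => 1) 1) (h : Ext (fun v => (f v : ℂ)) 0) :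
    Tendsto (fun x : ℕ => (∑ᶠ v ∈ {v : Pr K | Nm v ≤ x}, f v) / (Nat.primeCounting x : ℝ)) atTop (𝓝 0) := by
  have e1 : Ext (fun v => ((1 + f v : ℝ) : ℂ)) 1 := by
    have h2 := ext_lin (B := 1) (B' := 1) (w := fun _ : Pr K => 1) (w' := fun v => (f v : ℂ)) (fun v => by rw [norm_one]) (fun v => by
      rw [Complex.norm_real]
      exact hf v) h1 h 1 1
    have h3 : (1 : ℂ) * 1 + 1 * 0 = 1 := by ring
    rw [h3] at h2
    have h4 : (fun v : Pr K => (1 : ℂ) * 1 + 1 * (f v : ℂ)) = fun v => ((1 + f v : ℝ) : ℂ) := by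
      funext v
      push_cast
      ring
    rw [h4] at h2
    exact h2
  have e2 : Ext (fun v : Pr K => ((1 : ℝ) : ℂ)) 1 := by
    have h4 : (fun v : Pr K => ((1 : ℝ) : ℂ)) = fun _ => 1 := by
      funext v
      exact Complex.ofReal_one
    rw [h4]
    exact h1
  have t1 := tau (B := 2) (fun v => by linarith [(abs_le.1 (hf v)).1]) (fun v => by linarith [(abs_le.1 (hf v)).2]) e1
  have t2 := tau (u := fun _ : Pr K => (1 : ℝ)) (B := 2) (fun v => zero_le_one) (fun v => one_le_two) e2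
  have t3 := t1.sub t2
  rw [sub_self] at t3
  refine t3.congr fun x => ?_
  rw [← sub_div, finsum_mem_eq_finite_toFinset_sum _ (nm_fin x), finsum_mem_eq_finite_toFinset_sum _ (nm_fin x),
    finsum_mem_eq_finite_toFinset_sum _ (nm_fin x), ← Finset.sum_sub_distrib]
  congr 1
  refine Finset.sum_congr rfl fun v _ => ?_
  ring

/-- PROOF. `u = 1 + re w` and `u = 1 + im w` satisfy `tau` (`ext_lin`, `ext_conj`: `re w = (w + conj w) / 2`, `im w = (w - conj w) / (2 i)`); subtract `tau` for `u = 1`; so the real and the imaginary part of the quotient tend to 0. -/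
theorem mean_zero {w : Pr K → ℂ} (hw : ∀ v, ‖w v‖ ≤ 1) (h1 : Ext (fun _ : Pr K => 1) 1) (h : Ext w 0) :
    Tendsto (fun x : ℕ => (∑ᶠ v ∈ {v : Pr K | Nm v ≤ x}, w v) / (Nat.primeCounting x : ℂ)) atTop (𝓝 0) := by
  have hwc : ∀ v, ‖(starRingEnd ℂ) (w v)‖ ≤ 1 := fun v => by
    rw [RCLike.norm_conj]
    exact hw v
  have hre : Ext (fun v => ((w v).re : ℂ)) 0 := by
    have h2 := ext_lin hw hwc h (ext_conj h) (1 / 2) (1 / 2)
    have h3 : (1 / 2 : ℂ) * 0 + 1 / 2 * (starRingEnd ℂ) 0 = 0 := by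
      rw [map_zero]
      ring
    rw [h3] at h2
    have h4 : (fun v => (1 / 2 : ℂ) * w v + 1 / 2 * (starRingEnd ℂ) (w v)) = fun v => ((w v).re : ℂ) := by
      funext v
      rw [Complex.re_eq_add_conj]
      ring
    rw [h4] at h2
    exact h2
  have him : Ext (fun v => ((w v).im : ℂ)) 0 := by
    have h2 := ext_lin hw hwc h (ext_conj h) (1 / (2 * I)) (-(1 / (2 * I)))
    have h3 : (1 / (2 * I) : ℂ) * 0 + -(1 / (2 * I)) * (starRingEnd ℂ) 0 = 0 := by
      rw [map_zero]
      ring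
    rw [h3] at h2
    have h4 : (fun v => (1 / (2 * I) : ℂ) * w v + -(1 / (2 * I)) * (starRingEnd ℂ) (w v)) = fun v => ((w v).im : ℂ) := by
      funext v
      rw [Complex.im_eq_sub_conj]
      ring
    rw [h4] at h2
    exact h2
  have t1 := c8_real (fun v => (Complex.abs_re_le_norm (w v)).trans (hw v)) h1 hre
  have t2 := c8_real (fun v => (Complex.abs_im_le_norm (w v)).trans (hw v)) h1 him
  have t3 := ((Complex.continuous_ofReal.tendsto 0).comp t1).add (((Complex.continuous_ofReal.tendsto 0).comp t2).mul_const I)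
  rw [Complex.ofReal_zero, zero_mul, add_zero] at t3
  refine t3.congr fun x => ?_
  rw [Function.comp_apply, Function.comp_apply, finsum_mem_eq_finite_toFinset_sum _ (nm_fin x), finsum_mem_eq_finite_toFinset_sum _ (nm_fin x),
    finsum_mem_eq_finite_toFinset_sum _ (nm_fin x), Complex.ofReal_div, Complex.ofReal_div, Complex.ofReal_sum, Complex.ofReal_sum,
    Complex.ofReal_natCast, div_mul_eq_mul_div, ← add_div, Finset.sum_mul, ← Finset.sum_add_distrib]
  congr 1
  exact Finset.sum_congr rfl fun v _ => Complex.re_add_im (w v)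


/-- PROOF. The difference of the sums is bounded (`S` is finite), `Nat.tendsto_primeCounting`. -/
theorem change_S (S : Finset (Pr K)) {w w' : Pr K → ℂ} (h : ∀ v ∉ S, w v = w' v)
    (h1 : Tendsto (fun x : ℕ => (∑ᶠ v ∈ {v : Pr K | Nm v ≤ x}, w v) / (Nat.primeCounting x : ℂ)) atTop (𝓝 0)) :
    Tendsto (fun x : ℕ => (∑ᶠ v ∈ {v : Pr K | Nm v ≤ x}, w' v) / (Nat.primeCounting x : ℂ)) atTop (𝓝 0) := by
  classical
  have hπ : Tendsto (fun x : ℕ => ((Nat.primeCounting x : ℝ))⁻¹) atTop (𝓝 0) :=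
    tendsto_inv_atTop_zero.comp (tendsto_natCast_atTop_atTop.comp Nat.tendsto_primeCounting)
  have h2 : Tendsto (fun x : ℕ => (∑ᶠ v ∈ {v : Pr K | Nm v ≤ x}, w' v) / (Nat.primeCounting x : ℂ) -
      (∑ᶠ v ∈ {v : Pr K | Nm v ≤ x}, w v) / (Nat.primeCounting x : ℂ)) atTop (𝓝 0) := by
    have hb : Tendsto (fun x : ℕ => (∑ v ∈ S, ‖w' v - w v‖) * ((Nat.primeCounting x : ℝ))⁻¹) atTop (𝓝 0) := by
      have h3 := hπ.const_mul (∑ v ∈ S, ‖w' v - w v‖)
      rwa [mul_zero] at h3
    refine squeeze_zero_norm (fun x => ?_) hb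
    rw [← sub_div, norm_div, Complex.norm_natCast, div_eq_mul_inv]
    refine mul_le_mul_of_nonneg_right ?_ (inv_nonneg.2 (Nat.cast_nonneg _))
    rw [finsum_mem_eq_finite_toFinset_sum _ (nm_fin x), finsum_mem_eq_finite_toFinset_sum _ (nm_fin x), ← Finset.sum_sub_distrib]
    have h4 : ∑ v ∈ (nm_fin (K := K) x).toFinset, (w' v - w v) = ∑ v ∈ (nm_fin (K := K) x).toFinset with v ∈ S, (w' v - w v) := by
      rw [Finset.sum_filter]
      refine Finset.sum_congr rfl fun v _ => ?_
      split_ifs with hv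
      · rfl
      · rw [h v hv, sub_self]
    rw [h4]
    refine (norm_sum_le _ _).trans ?_
    refine Finset.sum_le_sum_of_subset_of_nonneg ?_ fun v _ _ => norm_nonneg _
    intro v hv
    exact (Finset.mem_filter.1 hv).2
  have h5 := h2.add h1
  rw [add_zero] at h5
  refine h5.congr fun x => ?_
  rw [sub_add_cancel]


end CFTC
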