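import Mathlib
import Pool.Agent.Lib.CFT.Y28
import Pool.Agent.Lib.CFT.Y30B
import Pool.Agent.Lib.CFTC.C4
import Pool.Agent.Lib.CFTC.C5
import Pool.Agent.Lib.CFTC.C8

/-! # CFT module C, file C9: the prime number theorem for Hecke characters (final statements)

Hypothesis `hf`: finiteness of the ray class groups (`CFTZ.pray_fin`). -/

open NumberField IsDedekindDomain Complex Filter Topology

namespace CFTC

open CFT CFTY

variable {K : Type} [Field K] [NumberField K]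

/-- the value of a divisor character at a prime -/
noncomputable abbrev vl (c : Dv K →+ Additive ℂˣ) (v : Pr K) : ℂ := (((c (Finsupp.single v 1)).toMul : ℂˣ) : ℂ)

theorem c9_sub : {s : ℂ | 1 ≤ s.re} ⊆ HP K := by
  intro s hs
  have h1 : (1 : ℝ) ≤ s.re := hs
  have h2 : 0 < 1 / (dg K : ℝ) := by
    have : 1 ≤ dg K := dg_pos
    positivity
  show 1 - 1 / (dg K : ℝ) < s.re
  linarith

theorem c9_norm {c : Dv K →+ Additive ℂˣ} (hn : ∀ v, ‖vl c v‖ = 1) (D : Dv K) : ‖(((c D).toMul : ℂˣ) : ℂ)‖ = 1 := by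
  rw [CFTZ.chi_apply, Finsupp.prod, Units.coe_prod, norm_prod]
  refine Finset.prod_eq_one fun v _ => ?_
  rw [Units.val_zpow_eq_zpow_val, norm_zpow]
  have h : ‖((CFTZ.cphi c v : ℂˣ) : ℂ)‖ = 1 := hn v
  rw [h, one_zpow]

theorem c9_typ {n : (K →+* ℂ) → ℤ} {x : K} (h : ‖∏ σ : K →+* ℂ, σ x ^ n σ‖ = 1) : typ n x = ∏ σ : K →+* ℂ, σ x ^ n σ := by
  unfold typ
  simp only [div_zpow]
  rw [Finset.prod_div_distrib]
  have h1 : (∏ σ : K →+* ℂ, (‖σ x‖ : ℂ) ^ n σ) = 1 := by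
    have h2 : (∏ σ : K →+* ℂ, (‖σ x‖ : ℂ) ^ n σ) = ((‖∏ σ : K →+* ℂ, σ x ^ n σ‖ : ℝ) : ℂ) := by
      rw [norm_prod, Complex.ofReal_prod]
      refine Finset.prod_congr rfl fun σ _ => ?_
      rw [norm_zpow, Complex.ofReal_zpow]
    rw [h2, h, Complex.ofReal_one]
  rw [h1, div_one]

theorem c9_hch (S : Finset (Pr K)) (N : ℕ) (c : Dv K →+ Additive ℂˣ)
    (hn : ∀ v, ‖vl c v‖ = 1) (n : (K →+* ℂ) → ℤ) (hx : ∀ x : K, Ray S N x → (((c (dv x)).toMul : ℂˣ) : ℂ) = ∏ σ : K →+* ℂ, σ x ^ n σ) :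
    HCh (mI S N) (typ n) (CFTZ.chI S c) := by
  refine hch_of c hn fun x hr => ?_
  rw [hx x hr, c9_typ]
  rw [← hx x hr]
  exact c9_norm hn _

theorem c9_le (S : Finset (Pr K)) {c : Dv K →+ Additive ℂˣ} (hn : ∀ v, ‖vl c v‖ = 1) (a : Ideal (𝓞 K)) : ‖CFTZ.chI S c a‖ ≤ 1 :=
  CFTZ.dd_norm_tI _ _ hn a

theorem c9_pr {S : Finset (Pr K)} (c : Dv K →+ Additive ℂˣ) {v : Pr K} (hv : v ∉ S) : pr (CFTZ.chI S c) v = vl c v :=
  CFTZ.chI_prime S c hv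

theorem c9_pr0 {S : Finset (Pr K)} (c : Dv K →+ Additive ℂˣ) {v : Pr K} (hv : v ∈ S) : pr (CFTZ.chI S c) v = 0 :=
  CFTZ.chI_prime_mem S c hv

/-- continuation, nontrivial case -/
theorem c9_ent (hf : ∀ (S : Finset (Pr K)) (N : ℕ), (Pray S N).FiniteIndex) (S : Finset (Pr K)) (N : ℕ) (c : Dv K →+ Additive ℂˣ)
    (hn : ∀ v, ‖vl c v‖ = 1) (n : (K →+* ℂ) → ℤ) (hx : ∀ x : K, Ray S N x → (((c (dv x)).toMul : ℂˣ) : ℂ) = ∏ σ : K →+* ℂ, σ x ^ n σ)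
    (h1 : ∃ v ∉ S, vl c v ≠ 1) :
    ∃ H : ℂ → ℂ, DifferentiableOn ℂ H (HP K) ∧ ∀ s : ℂ, 1 < s.re → H s = Lc (CFTZ.chI S c) s := by
  obtain ⟨v, hv, h2⟩ := h1
  refine hecke_entire hf (mI_ne S N) (c9_hch S N c hn n hx) ⟨v.asIdeal, v.ne_bot, ?_, ?_⟩
  · rw [cop_mI]
    intro w hw hle
    have h3 := v.isMaximal.eq_of_le w.isPrime.ne_top hle
    have h4 : v = w := HeightOneSpectrum.ext h3
    rw [h4] at hv
    exact hv hw
  · rw [CFTZ.chI_prime S c hv]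
    exact h2

/-- continuation, trivial case -/
theorem c9_pole (hf : ∀ (S : Finset (Pr K)) (N : ℕ), (Pray S N).FiniteIndex) (S : Finset (Pr K)) (N : ℕ) (c : Dv K →+ Additive ℂˣ)
    (hn : ∀ v, ‖vl c v‖ = 1) (n : (K →+* ℂ) → ℤ) (hx : ∀ x : K, Ray S N x → (((c (dv x)).toMul : ℂˣ) : ℂ) = ∏ σ : K →+* ℂ, σ x ^ n σ)
    (h1 : ∀ v ∉ S, vl c v = 1) :
    ∃ H : ℂ → ℂ, DifferentiableOn ℂ H (HP K) ∧ ∀ s : ℂ, 1 < s.re → H s = (s - 1) * Lc (CFTZ.chI S c) s := by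
  refine hecke_pole hf (mI_ne S N) (c9_hch S N c hn n hx) fun b hb hc => ?_
  have hc' : IsCoprime b (CFTZ.SI S) := (cop_SI S b).2 ((cop_mI S N b).1 hc)
  unfold CFTZ.chI
  rw [H55R.tI_apply _ _ hb hc', CFTZ.dd_pv_eq_one, Units.val_one]
  intro v hv
  have hvS : v ∉ S := fun h => (cop_mI S N b).1 hc v h hv
  exact Units.ext (h1 v hvS)

/-- bounded on a segment -/
theorem c9_bdd (hf : ∀ (S : Finset (Pr K)) (N : ℕ), (Pray S N).FiniteIndex) (S : Finset (Pr K)) (N : ℕ) (c : Dv K →+ Additive ℂˣ)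
    (hn : ∀ v, ‖vl c v‖ = 1) (n : (K →+* ℂ) → ℤ) (hx : ∀ x : K, Ray S N x → (((c (dv x)).toMul : ℂˣ) : ℂ) = ∏ σ : K →+* ℂ, σ x ^ n σ)
    (t : ℝ) (h : (∃ v ∉ S, vl c v ≠ 1) ∨ t ≠ 0) :
    ∃ C : ℝ, ∀ σ : ℝ, 1 < σ → σ ≤ 2 → ‖Lc (CFTZ.chI S c) (σ + 2 * t * I)‖ ≤ C := by
  have hre : ∀ σ : ℝ, (σ + 2 * t * I : ℂ).re = σ := fun σ => by simp
  have hmem : ∀ σ ∈ Set.Icc (1 : ℝ) 2, (σ + 2 * t * I : ℂ) ∈ HP K := fun σ hσ => c9_sub (by
    show (1 : ℝ) ≤ (σ + 2 * t * I : ℂ).re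
    rw [hre]
    exact hσ.1)
  have hcont : Continuous fun σ : ℝ => (σ + 2 * t * I : ℂ) := by fun_prop
  by_cases h1 : ∃ v ∉ S, vl c v ≠ 1
  · obtain ⟨H, hH, hL⟩ := c9_ent hf S N c hn n hx h1
    have h2 : ContinuousOn (fun σ : ℝ => H (σ + 2 * t * I)) (Set.Icc 1 2) :=
      hH.continuousOn.comp hcont.continuousOn hmem
    obtain ⟨C, hC⟩ := isCompact_Icc.exists_bound_of_continuousOn h2
    refine ⟨C, fun σ hσ hσ2 => ?_⟩
    rw [← hL _ (by rw [hre]; exact hσ)]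
    exact hC σ ⟨hσ.le, hσ2⟩
  · have ht : t ≠ 0 := h.resolve_left h1
    push Not at h1
    obtain ⟨H, hH, hL⟩ := c9_pole hf S N c hn n hx h1
    have hne : ∀ σ : ℝ, (σ + 2 * t * I : ℂ) - 1 ≠ 0 := by
      intro σ h0
      have h3 := congrArg Complex.im h0
      simp at h3
      exact ht h3
    have h2 : ContinuousOn (fun σ : ℝ => H (σ + 2 * t * I) / ((σ + 2 * t * I : ℂ) - 1)) (Set.Icc 1 2) :=
      (hH.continuousOn.comp hcont.continuousOn hmem).div (hcont.sub continuous_const).continuousOn fun σ _ => hne σ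
    obtain ⟨C, hC⟩ := isCompact_Icc.exists_bound_of_continuousOn h2
    refine ⟨C, fun σ hσ hσ2 => ?_⟩
    have h4 := hC σ ⟨hσ.le, hσ2⟩
    rw [hL _ (by rw [hre]; exact hσ), mul_div_assoc, mul_comm, div_mul_cancel₀ _ (hne σ)] at h4
    exact h4

/-- the trivial character -/
noncomputable def oo : Ideal (𝓞 K) →*₀ ℂ := CFTZ.chI ∅ (0 : Dv K →+ Additive ℂˣ)

omit [NumberField K] in
theorem oo_n (v : Pr K) : ‖vl (0 : Dv K →+ Additive ℂˣ) v‖ = 1 := by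
  simp [vl]

theorem oo_x (x : K) : ((((0 : Dv K →+ Additive ℂˣ) (dv x)).toMul : ℂˣ) : ℂ) = ∏ σ : K →+* ℂ, σ x ^ (0 : ℤ) := by
  simp

theorem oo_pr (v : Pr K) : pr oo v = 1 := by
  unfold oo
  rw [c9_pr _ (Finset.notMem_empty v)]
  simp [vl]

theorem oo_le (a : Ideal (𝓞 K)) : ‖(oo : Ideal (𝓞 K) →*₀ ℂ) a‖ ≤ 1 := c9_le ∅ oo_n a

theorem oo_ne {a : Ideal (𝓞 K)} (ha : a ≠ ⊥) : (oo : Ideal (𝓞 K) →*₀ ℂ) a = 1 := by
  unfold oo CFTZ.chI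
  rw [H55R.tI_apply _ _ ha ((cop_SI ∅ a).2 fun v hv => absurd hv (Finset.notMem_empty v)), CFTZ.dd_pv_eq_one, Units.val_one]
  intro v _
  exact Units.ext (by simp [CFTZ.cphi])

theorem oo_Lc {σ : ℝ} (hσ : 1 < σ) :
    Lc (oo : Ideal (𝓞 K) →*₀ ℂ) σ = ((∑' a : Ideal (𝓞 K), (Ideal.absNorm a : ℝ) ^ (-σ) : ℝ) : ℂ) := by
  unfold Lc
  rw [Complex.ofReal_tsum]
  refine tsum_congr fun a => ?_
  unfold CFTZ.tm
  by_cases ha : a = ⊥
  · have h0 : (oo : Ideal (𝓞 K) →*₀ ℂ) ⊥ = 0 := map_zero _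
    rw [ha, h0, zero_mul, Ideal.absNorm_bot, Nat.cast_zero, Real.zero_rpow (by linarith), Complex.ofReal_zero]
  · rw [oo_ne ha, one_mul, Complex.ofReal_cpow (Nat.cast_nonneg _)]
    push_cast
    rfl

theorem oo_B (K : Type) [Field K] [NumberField K] : ∃ B : ℝ, ∀ σ : ℝ, 1 < σ → σ ≤ 2 → (σ - 1) * ‖Lc (oo : Ideal (𝓞 K) →*₀ ℂ) σ‖ ≤ B := by
  obtain ⟨B, hB⟩ := CFTZ.zeta_pole K
  refine ⟨B, fun σ h1 h2 => ?_⟩
  rw [oo_Lc h1, Complex.norm_real, Real.norm_of_nonneg (tsum_nonneg fun a => by positivity)]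
  exact hB σ ⟨h1, h2⟩

/-- no zeros for a nontrivial character -/
theorem c9_nv (hf : ∀ (S : Finset (Pr K)) (N : ℕ), (Pray S N).FiniteIndex) (S : Finset (Pr K)) (N : ℕ) (c : Dv K →+ Additive ℂˣ)
    (hn : ∀ v, ‖vl c v‖ = 1) (n : (K →+* ℂ) → ℤ) (hx : ∀ x : K, Ray S N x → (((c (dv x)).toMul : ℂˣ) : ℂ) = ∏ σ : K →+* ℂ, σ x ^ n σ)
    {H : ℂ → ℂ} (hH : DifferentiableOn ℂ H (HP K)) (hL : ∀ s : ℂ, 1 < s.re → H s = Lc (CFTZ.chI S c) s) (t : ℝ)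
    (h : (∃ v ∉ S, vl c v ^ 2 ≠ 1) ∨ t ≠ 0) : H (1 + t * I) ≠ 0 := by
  obtain ⟨B, hB⟩ := oo_B K
  have hn2 : ∀ v, ‖vl (c + c) v‖ = 1 := by
    intro v
    have h1 : vl (c + c) v = vl c v * vl c v := by
      simp [vl]
    rw [h1, norm_mul, hn v, mul_one]
  have hx2 : ∀ x : K, Ray S N x → ((((c + c) (dv x)).toMul : ℂˣ) : ℂ) = ∏ σ : K →+* ℂ, σ x ^ (n σ + n σ) := by
    intro x hr
    have h1 : ((((c + c) (dv x)).toMul : ℂˣ) : ℂ) = (((c (dv x)).toMul : ℂˣ) : ℂ) * (((c (dv x)).toMul : ℂˣ) : ℂ) := by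
      simp
    rw [h1, hx x hr, ← Finset.prod_mul_distrib]
    refine Finset.prod_congr rfl fun σ _ => ?_
    rw [zpow_add₀ ((map_ne_zero σ).2 hr.ne)]
  obtain ⟨C, hC⟩ := c9_bdd hf S N (c + c) hn2 (fun σ => n σ + n σ) hx2 t (h.imp_left fun ⟨v, hv, h1⟩ => ⟨v, hv, by
    have h2 : vl (c + c) v = vl c v ^ 2 := by
      simp [vl, sq]
    rw [h2]
    exact h1⟩)
  refine nv (o := oo) (h := CFTZ.chI S c) (h2 := CFTZ.chI S (c + c)) oo_pr oo_le (c9_le S hn) (c9_le S hn2) (fun v => ?_) (fun v => ?_) t hB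
    (hH.differentiableAt (y30b_open.mem_nhds (c9_sub (by simp)))) hL hC
  · by_cases hv : v ∈ S
    · exact Or.inl (c9_pr0 c hv)
    · rw [c9_pr c hv]
      exact Or.inr (hn v)
  · by_cases hv : v ∈ S
    · rw [c9_pr0 _ hv, c9_pr0 _ hv, zero_pow two_ne_zero]
    · rw [c9_pr _ hv, c9_pr _ hv]
      simp [vl, sq]

theorem c9_re {H : ℂ → ℂ} (h1 : ∀ s : ℂ, 1 < s.re → H s ≠ 0) (h2 : ∀ t : ℝ, H (1 + t * I) ≠ 0) (s : ℂ) (hs : 1 ≤ s.re) : H s ≠ 0 := by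
  rcases eq_or_lt_of_le hs with h3 | h3
  · have h4 : s = 1 + (s.im : ℂ) * I := by
      apply Complex.ext
      · simp [← h3]
      · simp
    rw [h4]
    exact h2 s.im
  · exact h1 s h3

theorem c9_exp (h : Ideal (𝓞 K) →*₀ ℂ) (hh : ∀ a, ‖h a‖ ≤ 1) {s : ℂ} (hs : 1 < s.re) : Lc h s ≠ 0 := by
  rw [← exp_eq h hh hs]
  exact Complex.exp_ne_zero _

/-- the trivial character: continuous extension -/
theorem c9_ext1 (hf : ∀ (S : Finset (Pr K)) (N : ℕ), (Pray S N).FiniteIndex) : Ext (fun _ : Pr K => 1) 1 := by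
  obtain ⟨H, hH, hL⟩ := c9_pole hf ∅ 0 (0 : Dv K →+ Additive ℂˣ) oo_n (fun _ => 0) (fun x _ => oo_x x) (fun v _ => by simp [vl])
  have hL' : ∀ s : ℂ, 1 < s.re → H s = (s - 1) * Lc (oo : Ideal (𝓞 K) →*₀ ℂ) s := hL
  have hs1 : ∀ s : ℂ, 1 < s.re → s - 1 ≠ 0 := by
    intro s hs h0
    rw [sub_eq_zero.1 h0, Complex.one_re] at hs
    exact lt_irrefl _ hs
  have hne : ∀ s : ℂ, 1 ≤ s.re → H s ≠ 0 := by
    refine c9_re (fun s hs => ?_) fun t => ?_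
    · rw [hL' s hs]
      exact mul_ne_zero (hs1 s hs) (c9_exp _ oo_le hs)
    · by_cases ht : t = 0
      · rw [ht, Complex.ofReal_zero, zero_mul, add_zero]
        obtain ⟨A, B, hA, hAB⟩ := CFTZ.RD3_bd K
        have h1 : ContinuousAt H 1 := (hH.differentiableAt (y30b_open.mem_nhds (c9_sub (by simp)))).continuousAt
        have h2 : Tendsto (fun σ : ℝ => ‖H σ‖) (𝓝[>] 1) (𝓝 ‖H 1‖) := by
          have h3 : Tendsto (fun σ : ℝ => (σ : ℂ)) (𝓝[>] 1) (𝓝 1) := by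
            have h4 : Continuous fun σ : ℝ => (σ : ℂ) := Complex.continuous_ofReal
            have h5 := (h4.tendsto 1).mono_left (nhdsWithin_le_nhds (s := Set.Ioi (1 : ℝ)))
            rwa [Complex.ofReal_one] at h5
          exact (h1.tendsto.comp h3).norm
        have h6 : A ≤ ‖H 1‖ := by
          refine ge_of_tendsto h2 ?_
          filter_upwards [Ioc_mem_nhdsGT (show (1 : ℝ) < 2 by norm_num)] with σ hσ
          rw [hL' _ (by rw [Complex.ofReal_re]; exact hσ.1), oo_Lc hσ.1, norm_mul, Complex.norm_real,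
            Real.norm_of_nonneg (tsum_nonneg fun a => by positivity)]
          have h7 : ‖(σ : ℂ) - 1‖ = σ - 1 := by
            rw [← Complex.ofReal_one, ← Complex.ofReal_sub, Complex.norm_real, Real.norm_of_nonneg (by linarith [hσ.1])]
          rw [h7]
          exact (hAB σ hσ).1
        intro h0
        rw [h0, norm_zero] at h6
        linarith
      · obtain ⟨B, hB⟩ := oo_B K
        have hne1 : (1 + t * I : ℂ) - 1 ≠ 0 := by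
          intro h0
          have h3 := congrArg Complex.im h0
          simp at h3
          exact ht h3
        obtain ⟨C, hC⟩ := c9_bdd hf ∅ 0 (0 : Dv K →+ Additive ℂˣ) oo_n (fun _ => 0) (fun x _ => oo_x x) t (Or.inr ht)
        have h1 : DifferentiableAt ℂ (fun s => H s / (s - 1)) (1 + t * I) :=
          (hH.differentiableAt (y30b_open.mem_nhds (c9_sub (by simp)))).div
            (differentiableAt_id.sub_const 1) hne1
        have h2 := nv (o := oo) (h := oo) (h2 := oo) oo_pr oo_le oo_le oo_le (fun v => Or.inr (by rw [oo_pr, norm_one]))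
          (fun v => by rw [oo_pr, one_pow]) t hB h1 (fun s hs => by
            rw [hL' s hs, mul_comm, mul_div_assoc, div_self (hs1 s hs), mul_one]) hC
        intro h0
        apply h2
        rw [h0, zero_div]
  have h3 := ext_of (oo : Ideal (𝓞 K) →*₀ ℂ) oo_le 1 y30b_open c9_sub hH (fun s hs => by rw [hL' s hs, pow_one]) hne
  have h4 : pr (oo : Ideal (𝓞 K) →*₀ ℂ) = fun _ => 1 := funext oo_pr
  rw [h4, Nat.cast_one] at h3
  exact h3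

/-- (C3) The prime ideal theorem. -/
theorem pit (hf : ∀ (S : Finset (Pr K)) (N : ℕ), (Pray S N).FiniteIndex) :
    Tendsto (fun x : ℕ => (Set.ncard {v : Pr K | Nm v ≤ x} : ℝ) / (Nat.primeCounting x : ℝ)) atTop (𝓝 1) := by
  have h := tau (u := fun _ : Pr K => 1) (B := 1) (fun _ => zero_le_one) (fun _ => le_rfl) (by
    simp only [Complex.ofReal_one]
    exact c9_ext1 hf)
  refine h.congr fun x => ?_
  rw [finsum_mem_eq_finite_toFinset_sum _ (nm_fin x), Finset.sum_const, nsmul_eq_mul, mul_one, Set.ncard_eq_toFinset_card _ (nm_fin x)]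

theorem c9_main (hf : ∀ (S : Finset (Pr K)) (N : ℕ), (Pray S N).FiniteIndex) (S : Finset (Pr K)) (N : ℕ) (c : Dv K →+ Additive ℂˣ)
    (hn : ∀ v, ‖vl c v‖ = 1) (n : (K →+* ℂ) → ℤ) (hx : ∀ x : K, Ray S N x → (((c (dv x)).toMul : ℂˣ) : ℂ) = ∏ σ : K →+* ℂ, σ x ^ n σ)
    (h1 : ∃ v ∉ S, vl c v ≠ 1) (hL : (∃ v ∉ S, vl c v ^ 2 ≠ 1) ∨
      ∀ H : ℂ → ℂ, DifferentiableOn ℂ H (HP K) → (∀ s : ℂ, 1 < s.re → H s = Lc (CFTZ.chI S c) s) → H 1 ≠ 0) :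
    Tendsto (fun x : ℕ => (∑ᶠ v ∈ {v : Pr K | Nm v ≤ x}, vl c v) / (Nat.primeCounting x : ℂ)) atTop (𝓝 0) := by
  obtain ⟨H, hH, hLc⟩ := c9_ent hf S N c hn n hx h1
  have hne : ∀ s : ℂ, 1 ≤ s.re → H s ≠ 0 := by
    refine c9_re (fun s hs => ?_) fun t => ?_
    · rw [hLc s hs]
      exact c9_exp _ (c9_le S hn) hs
    · rcases hL with h2 | h2
      · exact c9_nv hf S N c hn n hx hH hLc t (Or.inl h2)
      · by_cases ht : t = 0
        · rw [ht, Complex.ofReal_zero, zero_mul, add_zero]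
          exact h2 H hH hLc
        · exact c9_nv hf S N c hn n hx hH hLc t (Or.inr ht)
  have h3 := ext_of (CFTZ.chI S c) (c9_le S hn) 0 y30b_open c9_sub hH (fun s hs => by rw [hLc s hs, pow_zero, one_mul]) hne
  rw [Nat.cast_zero] at h3
  refine change_S S (w := pr (CFTZ.chI S c)) (fun v hv => c9_pr c hv) (mean_zero (fun v => c9_le S hn _) (c9_ext1 hf) h3)

/-- (C1) Characters which are not real. -/
theorem hecke_c1 (hf : ∀ (S : Finset (Pr K)) (N : ℕ), (Pray S N).FiniteIndex) (S : Finset (Pr K)) (N : ℕ) (c : Dv K →+ Additive ℂˣ)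
    (hn : ∀ v, ‖vl c v‖ = 1) (n : (K →+* ℂ) → ℤ) (hx : ∀ x : K, Ray S N x → (((c (dv x)).toMul : ℂˣ) : ℂ) = ∏ σ : K →+* ℂ, σ x ^ n σ)
    (h2 : ∃ v ∉ S, vl c v ^ 2 ≠ 1) :
    Tendsto (fun x : ℕ => (∑ᶠ v ∈ {v : Pr K | Nm v ≤ x}, vl c v) / (Nat.primeCounting x : ℂ)) atTop (𝓝 0) := by
  obtain ⟨v, hv, h3⟩ := h2
  exact c9_main hf S N c hn n hx ⟨v, hv, fun h => h3 (by rw [h, one_pow])⟩ (Or.inl ⟨v, hv, h3⟩)

/-- (C2) All nontrivial characters, if the L-function does not vanish at 1. -/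
theorem hecke_c2 (hf : ∀ (S : Finset (Pr K)) (N : ℕ), (Pray S N).FiniteIndex) (S : Finset (Pr K)) (N : ℕ) (c : Dv K →+ Additive ℂˣ)
    (hn : ∀ v, ‖vl c v‖ = 1) (n : (K →+* ℂ) → ℤ) (hx : ∀ x : K, Ray S N x → (((c (dv x)).toMul : ℂˣ) : ℂ) = ∏ σ : K →+* ℂ, σ x ^ n σ)
    (h1 : ∃ v ∉ S, vl c v ≠ 1) (hL : ∀ H : ℂ → ℂ, DifferentiableOn ℂ H (HP K) → (∀ s : ℂ, 1 < s.re → H s = Lc (CFTZ.chI S c) s) → H 1 ≠ 0) :
    Tendsto (fun x : ℕ => (∑ᶠ v ∈ {v : Pr K | Nm v ≤ x}, vl c v) / (Nat.primeCounting x : ℂ)) atTop (𝓝 0) :=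
  c9_main hf S N c hn n hx h1 (Or.inr hL)

end CFTC
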