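import Mathlib
import Pool.Agent.Lib.CFT.ZE
import Pool.Agent.Lib.CFT.ZF
import Pool.Agent.Lib.CFT.B18
import Pool.Agent.Lib.CFTC.C9

/-! # CFT module C, file C10: quadratic extensions (by counting), final forms without the hypothesis on the ray class groups

quad: L/K quadratic, S contains the ramified primes, w v = 1 if the Frobenius element is 1 and -1 otherwise, for v not in S: mean value 0. -/

open NumberField IsDedekindDomain Complex Filter Topology

namespace CFTC

open CFT CFTY CFTZ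

section count

variable {K : Type} [Field K] [NumberField K] {L : Type} [Field L] [NumberField L] [Algebra K L]

/-- the primes of norm at most x -/
noncomputable def BX (K : Type) [Field K] [NumberField K] (x : ℕ) : Finset (Pr K) := (nm_fin (K := K) x).toFinset

theorem mem_BX (x : ℕ) (v : Pr K) : v ∈ BX K x ↔ Nm v ≤ x := by
  unfold BX
  rw [Set.Finite.mem_toFinset]
  rfl

open Classical in
/-- the number of primes of L above v of norm at most x -/
noncomputable def gx (L : Type) [Field L] [NumberField L] [Algebra K L] (x : ℕ) (v : Pr K) : ℕ :=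
  ((BX L x).filter fun W => below K W = v).card

open Classical in
/-- the sign -/
noncomputable def sgf (L : Type) [Field L] [NumberField L] [Algebra K L] (v : Pr K) : ℝ := if frob K L v = 1 then 1 else -1

theorem sgf_abs (v : Pr K) : |sgf L v| = 1 := by
  unfold sgf
  split_ifs <;> simp

theorem c10_card [IsGalois K L] (x : ℕ) : (BX L x).card = ∑ v ∈ BX K x, gx L x v := by
  classical
  unfold gx
  refine Finset.card_eq_sum_card_fiberwise fun W hW => ?_
  have h1 : Nm W ≤ x := (mem_BX x W).1 hW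
  have h2 := D5_norm (K := K) (L := L) (below K W) W rfl
  have h3 : 1 ≤ H55R.fs K L (below K W) := H55R.fs_pos _
  have h4 : 2 ≤ Nm (below K W) := dd_two_le _
  have h5 : Nm (below K W) ^ 1 ≤ Nm (below K W) ^ H55R.fs K L (below K W) := Nat.pow_le_pow_right (by omega) h3
  rw [pow_one] at h5
  have h6 : Nm W = Nm (below K W) ^ H55R.fs K L (below K W) := h2
  exact (mem_BX x _).2 (by omega)

theorem c10_gle [IsGalois K L] (hq : Module.finrank K L = 2) (x : ℕ) (v : Pr K) : gx L x v ≤ 2 := by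
  classical
  have h1 := D5_card_le (K := K) (L := L) v
  rw [hq] at h1
  refine le_trans ?_ h1
  unfold gx
  refine Finset.card_le_card fun W hW => ?_
  rw [Finset.mem_filter] at hW
  exact (D5_mem v W).2 hW.2

theorem c10_g [IsGalois K L] (hq : Module.finrank K L = 2) (hab : ∀ a b : L ≃ₐ[K] L, a * b = b * a) {v : Pr K} (hv : Unr K L v) {x : ℕ}
    (hx : Nm v ≤ x) : |sgf L v - ((gx L x v : ℝ) - 1)| ≤ if Nm v ^ 2 ≤ x then 1 else 0 := by
  classical
  obtain ⟨W0, hW0⟩ := H55R.under_exists (L := L) v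
  have hW0' : below K W0 = v := hW0
  have hvp := v.isPrime
  have hW0p := W0.isPrime
  have hl : W0.asIdeal.LiesOver v.asIdeal := (H55R.BF2_mem v W0 hW0).2
  have he : H55R.es K L v = 1 := by
    have h1 : H55R.es K L v = W0.asIdeal.ramificationIdx (𝓞 K) := Ideal.ramificationIdxIn_eq_ramificationIdx v.asIdeal W0.asIdeal Gal(L/K)
    rw [h1]
    exact hv W0 hW0'
  have hf : H55R.fs K L v = orderOf (frob K L v) := by
    have h1 : H55R.fs K L v = W0.asIdeal.inertiaDeg (𝓞 K) := Ideal.inertiaDegIn_eq_inertiaDeg v.asIdeal W0.asIdeal Gal(L/K)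
    rw [h1, order_frob hab hv W0 hW0']
  have hc := D5_card (K := K) (L := L) v
  rw [he, one_mul, hq] at hc
  have hg : gx L x v = if Nm v ^ H55R.fs K L v ≤ x then (D5_T (L := L) v).card else 0 := by
    unfold gx
    split_ifs with h
    · congr 1
      ext W
      rw [Finset.mem_filter, D5_mem, mem_BX]
      constructor
      · rintro ⟨-, h1⟩
        exact h1
      · intro h1
        have h2 : Nm W = Nm v ^ H55R.fs K L v := D5_norm v W h1
        exact ⟨by rw [h2]; exact h, h1⟩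
    · rw [Finset.card_eq_zero, Finset.filter_eq_empty_iff]
      intro W hW h1
      rw [mem_BX] at hW
      have h2 : Nm W = Nm v ^ H55R.fs K L v := D5_norm v W h1
      rw [h2] at hW
      exact h hW
  by_cases h1 : frob K L v = 1
  · have hf1 : H55R.fs K L v = 1 := by rw [hf, h1, orderOf_one]
    rw [hf1, mul_one] at hc
    rw [hf1, pow_one, if_pos hx, hc] at hg
    have hs : sgf L v = 1 := if_pos h1
    rw [hg, hs]
    have h3 : |(1 : ℝ) - (((2 : ℕ) : ℝ) - 1)| = 0 := by norm_num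
    rw [h3]
    split_ifs <;> norm_num
  · have hf2 : H55R.fs K L v = 2 := by
      have h2 : H55R.fs K L v ∣ 2 := Dvd.intro_left _ hc
      have h3 : H55R.fs K L v ≠ 1 := by
        rw [hf]
        exact fun h => h1 (orderOf_eq_one_iff.1 h)
      exact ((Nat.dvd_prime Nat.prime_two).1 h2).resolve_left h3
    rw [hf2] at hc hg
    have hc1 : (D5_T (L := L) v).card = 1 := by omega
    rw [hc1] at hg
    have hs : sgf L v = -1 := if_neg h1
    rw [hg, hs]
    split_ifs <;> norm_num

theorem c10_cmp [IsGalois K L] (hq : Module.finrank K L = 2) (hab : ∀ a b : L ≃ₐ[K] L, a * b = b * a) (S : Finset (Pr K))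
    (hS : ∀ v : Pr K, ¬ Unr K L v → v ∈ S) (x : ℕ) :
    |∑ v ∈ BX K x, sgf L v - (((BX L x).card : ℝ) - (BX K x).card)| ≤ (BX K (Nat.sqrt x)).card + 3 * S.card := by
  classical
  have h1 : ∑ v ∈ BX K x, sgf L v - (((BX L x).card : ℝ) - (BX K x).card) = ∑ v ∈ BX K x, (sgf L v - ((gx L x v : ℝ) - 1)) := by
    rw [c10_card (K := K), Finset.sum_sub_distrib, Finset.sum_sub_distrib, Finset.sum_const, nsmul_eq_mul, mul_one]
    push_cast
    ring
  rw [h1]
  refine (Finset.abs_sum_le_sum_abs _ _).trans ?_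
  have h2 : ∀ v ∈ BX K x, |sgf L v - ((gx L x v : ℝ) - 1)| ≤ (if Nm v ^ 2 ≤ x then (1 : ℝ) else 0) + if v ∈ S then (3 : ℝ) else 0 := by
    intro v hv
    rw [mem_BX] at hv
    by_cases hvS : v ∈ S
    · rw [if_pos hvS]
      have h3 := c10_gle hq x v
      have h4 : (gx L x v : ℝ) ≤ 2 := by exact_mod_cast h3
      have h5 : (0 : ℝ) ≤ gx L x v := Nat.cast_nonneg _
      have h6 := abs_le.1 (sgf_abs (L := L) v).le
      have h7 : (0 : ℝ) ≤ if Nm v ^ 2 ≤ x then (1 : ℝ) else 0 := by split_ifs <;> norm_num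
      rw [abs_le]
      constructor <;> linarith [h6.1, h6.2]
    · rw [if_neg hvS, add_zero]
      exact c10_g hq hab (by
        by_contra hcon
        exact hvS (hS v hcon)) hv
  refine (Finset.sum_le_sum h2).trans ?_
  rw [Finset.sum_add_distrib]
  refine add_le_add ?_ ?_
  · rw [← Finset.sum_filter, Finset.sum_const, nsmul_eq_mul, mul_one]
    have h3 : (BX K x).filter (fun v => Nm v ^ 2 ≤ x) ⊆ BX K (Nat.sqrt x) := by
      intro v hv
      rw [Finset.mem_filter] at hv
      rw [mem_BX]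
      exact Nat.le_sqrt'.2 hv.2
    exact_mod_cast Finset.card_le_card h3
  · rw [← Finset.sum_filter, Finset.sum_const, nsmul_eq_mul, mul_comm]
    have h3 : (BX K x).filter (fun v => v ∈ S) ⊆ S := fun v hv => (Finset.mem_filter.1 hv).2
    have h4 : (((BX K x).filter (fun v => v ∈ S)).card : ℝ) ≤ S.card := by exact_mod_cast Finset.card_le_card h3
    linarith

end count

theorem c10_ppos {n : ℕ} (hn : 2 ≤ n) : 0 < Nat.primeCounting n := by
  have h1 : Nat.primeCounting 2 ≤ Nat.primeCounting n := Nat.monotone_primeCounting hn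
  have h2 : Nat.primeCounting 2 = 1 := by decide
  omega

theorem c10_ple (n : ℕ) : Nat.primeCounting n ≤ n := by
  rw [Nat.primeCounting, Nat.primeCounting', Nat.count_eq_card_filter_range]
  have h1 : (Finset.range (n + 1)).filter Nat.Prime ⊆ Finset.Icc 1 n := by
    intro p hp
    rw [Finset.mem_filter, Finset.mem_range] at hp
    have h2 := hp.2.pos
    exact Finset.mem_Icc.2 ⟨by omega, by omega⟩
  have h3 := Finset.card_le_card h1
  rwa [Nat.card_Icc, Nat.add_sub_cancel] at h3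

theorem c10_pi : Tendsto (fun x : ℕ => (Nat.primeCounting x : ℝ)) atTop atTop :=
  tendsto_natCast_atTop_atTop.comp Nat.tendsto_primeCounting

theorem c10_sqrt : Tendsto (fun x : ℕ => (Nat.sqrt x : ℝ) / (Nat.primeCounting x : ℝ)) atTop (𝓝 0) := by
  have h1 := Pool.Agent.Lib.PNT.primeCounting_nat_tendsto.inv₀ one_ne_zero
  have h2 : Tendsto (fun n : ℕ => Real.log n / (n : ℝ) ^ (1 / 2 : ℝ)) atTop (𝓝 0) :=
    ((isLittleO_log_rpow_atTop (by norm_num : (0 : ℝ) < 1 / 2)).tendsto_div_nhds_zero).comp tendsto_natCast_atTop_atTop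
  have h3 := h1.mul h2
  rw [inv_one, one_mul] at h3
  refine squeeze_zero' (Eventually.of_forall fun x => by positivity) ?_ h3
  filter_upwards [eventually_ge_atTop 2] with n hn
  have hn0 : (0 : ℝ) < n := by
    have : 0 < n := by omega
    exact_mod_cast this
  have hl : 0 < Real.log n := Real.log_pos (by exact_mod_cast (by omega : 1 < n))
  have hp : 0 < (Nat.primeCounting n : ℝ) := by
    have : 0 < Nat.primeCounting n := c10_ppos hn
    exact_mod_cast this
  have h4 : ((Nat.primeCounting n : ℝ) * Real.log n / n)⁻¹ * (Real.log n / (n : ℝ) ^ (1 / 2 : ℝ)) = (n : ℝ) ^ (1 / 2 : ℝ) / Nat.primeCounting n := by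
    have h5 : (n : ℝ) = (n : ℝ) ^ (1 / 2 : ℝ) * (n : ℝ) ^ (1 / 2 : ℝ) := by
      rw [← Real.rpow_add hn0]
      norm_num
    have h6 : (n : ℝ) ^ (1 / 2 : ℝ) ≠ 0 := (Real.rpow_pos_of_pos hn0 _).ne'
    have h7 : ((Nat.primeCounting n : ℝ) * Real.log n / n)⁻¹ = n / ((Nat.primeCounting n : ℝ) * Real.log n) := by
      rw [inv_div]
    rw [h7]
    have h8 : (n : ℝ) / ((Nat.primeCounting n : ℝ) * Real.log n) * (Real.log n / (n : ℝ) ^ (1 / 2 : ℝ)) =
        (n : ℝ) / (n : ℝ) ^ (1 / 2 : ℝ) / Nat.primeCounting n := by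
      field_simp
    rw [h8]
    congr 1
    rw [div_eq_iff h6]
    exact h5
  rw [h4]
  refine div_le_div_of_nonneg_right ?_ hp.le
  rw [← Real.sqrt_eq_rpow]
  exact Real.nat_sqrt_le_real_sqrt

section fin

variable {K : Type} [Field K] [NumberField K] {L : Type} [Field L] [NumberField L] [Algebra K L]

theorem c10_pit (K : Type) [Field K] [NumberField K] :
    Tendsto (fun x : ℕ => ((BX K x).card : ℝ) / (Nat.primeCounting x : ℝ)) atTop (𝓝 1) := by
  refine (pit (K := K) fun S N => CFTZ.pray_fin S N).congr fun x => ?_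
  rw [Set.ncard_eq_toFinset_card _ (nm_fin x)]
  rfl

theorem c10_small (K : Type) [Field K] [NumberField K] :
    Tendsto (fun x : ℕ => ((BX K (Nat.sqrt x)).card : ℝ) / (Nat.primeCounting x : ℝ)) atTop (𝓝 0) := by
  have hsq : Tendsto (fun x : ℕ => Nat.sqrt x) atTop atTop := by
    refine tendsto_atTop.2 fun b => ?_
    filter_upwards [eventually_ge_atTop (b ^ 2)] with x hx
    exact Nat.le_sqrt'.2 hx
  have h1 := (c10_pit K).comp hsq
  have h2 := h1.eventually (gt_mem_nhds (show (1 : ℝ) < 2 by norm_num))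
  have h3 := c10_sqrt.const_mul 2
  rw [mul_zero] at h3
  refine squeeze_zero' (Eventually.of_forall fun x => by positivity) ?_ h3
  filter_upwards [h2, hsq.eventually_ge_atTop 2] with x hx hx2
  have hp : 0 < (Nat.primeCounting (Nat.sqrt x) : ℝ) := by
    have : 0 < Nat.primeCounting (Nat.sqrt x) := c10_ppos hx2
    exact_mod_cast this
  simp only [Function.comp] at hx
  rw [div_lt_iff₀ hp] at hx
  have h4 : (Nat.primeCounting (Nat.sqrt x) : ℝ) ≤ Nat.sqrt x := by
    have : Nat.primeCounting (Nat.sqrt x) ≤ Nat.sqrt x := c10_ple _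
    exact_mod_cast this
  rw [mul_div_assoc']
  refine div_le_div_of_nonneg_right ?_ (Nat.cast_nonneg _)
  linarith

/-- QUADRATIC EXTENSIONS. The split and the inert primes have the same density. -/
theorem quad [IsGalois K L] (hq : Module.finrank K L = 2) (S : Finset (Pr K)) (hS : ∀ v : Pr K, ¬ Unr K L v → v ∈ S)
    (w : Pr K → ℂ) (h1 : ∀ v ∉ S, frob K L v = 1 → w v = 1) (h2 : ∀ v ∉ S, frob K L v ≠ 1 → w v = -1) :
    Tendsto (fun x : ℕ => (∑ᶠ v ∈ {v : Pr K | Nm v ≤ x}, w v) / (Nat.primeCounting x : ℂ)) atTop (𝓝 0) := by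
  classical
  have hab : ∀ a b : L ≃ₐ[K] L, a * b = b * a := by
    have hcard : Nat.card (L ≃ₐ[K] L) = 2 := by rw [IsGalois.card_aut_eq_finrank, hq]
    have : Fact (Nat.Prime 2) := ⟨Nat.prime_two⟩
    have hcyc : IsCyclic (L ≃ₐ[K] L) := isCyclic_of_prime_card hcard
    intro a b
    obtain ⟨g, hg⟩ := hcyc.exists_generator
    obtain ⟨i, hi⟩ := Subgroup.mem_zpowers_iff.1 (hg a)
    obtain ⟨j, hj⟩ := Subgroup.mem_zpowers_iff.1 (hg b)
    rw [← hi, ← hj, ← zpow_add, ← zpow_add, add_comm]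
  have hreal : Tendsto (fun x : ℕ => (∑ v ∈ BX K x, sgf L v) / (Nat.primeCounting x : ℝ)) atTop (𝓝 0) := by
    have e1 : Tendsto (fun x : ℕ => ((BX L x).card : ℝ) / (Nat.primeCounting x : ℝ) - ((BX K x).card : ℝ) / (Nat.primeCounting x : ℝ)) atTop (𝓝 0) := by
      have := (c10_pit L).sub (c10_pit K)
      rwa [sub_self] at this
    have e2 : Tendsto (fun x : ℕ => (((BX K (Nat.sqrt x)).card : ℝ) + 3 * S.card) / (Nat.primeCounting x : ℝ)) atTop (𝓝 0) := by
      have h3 := (c10_small K).add ((tendsto_const_nhds (x := (3 * S.card : ℝ))).div_atTop c10_pi)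
      rw [add_zero] at h3
      refine h3.congr fun x => ?_
      rw [add_div]
    have e3 : Tendsto (fun x : ℕ => (∑ v ∈ BX K x, sgf L v - (((BX L x).card : ℝ) - (BX K x).card)) / (Nat.primeCounting x : ℝ)) atTop (𝓝 0) := by
      rw [tendsto_zero_iff_abs_tendsto_zero]
      refine squeeze_zero (fun x => abs_nonneg _) (fun x => ?_) e2
      show |_ / _| ≤ _
      rw [abs_div, abs_of_nonneg (a := (Nat.primeCounting x : ℝ)) (Nat.cast_nonneg _)]
      exact div_le_div_of_nonneg_right (c10_cmp hq hab S hS x) (Nat.cast_nonneg _)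
    have e4 := e3.add e1
    rw [add_zero] at e4
    refine e4.congr fun x => ?_
    rw [← sub_div, ← add_div]
    congr 1
    ring
  have hc : Tendsto (fun x : ℕ => (∑ᶠ v ∈ {v : Pr K | Nm v ≤ x}, ((sgf L v : ℝ) : ℂ)) / (Nat.primeCounting x : ℂ)) atTop (𝓝 0) := by
    have h3 := (Complex.continuous_ofReal.tendsto 0).comp hreal
    rw [Complex.ofReal_zero] at h3
    refine h3.congr fun x => ?_
    rw [finsum_mem_eq_finite_toFinset_sum _ (nm_fin x)]
    simp only [Function.comp]
    push_cast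
    rfl
  refine change_S S (fun v hv => ?_) hc
  by_cases h3 : frob K L v = 1
  · rw [h1 v hv h3]
    have : sgf L v = 1 := if_pos h3
    rw [this, Complex.ofReal_one]
  · rw [h2 v hv h3]
    have : sgf L v = -1 := if_neg h3
    rw [this]
    push_cast
    rfl

/-- THE PRIME IDEAL THEOREM. -/
theorem prime_ideal_thm (K : Type) [Field K] [NumberField K] :
    Tendsto (fun x : ℕ => (Set.ncard {v : Pr K | Nm v ≤ x} : ℝ) / (Nat.primeCounting x : ℝ)) atTop (𝓝 1) :=
  pit fun S N => CFTZ.pray_fin S N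

/-- THE PRIME NUMBER THEOREM FOR HECKE CHARACTERS with infinity type, characters which are not real. -/
theorem hecke_pnt (S : Finset (Pr K)) (N : ℕ) (c : Dv K →+ Additive ℂˣ)
    (hn : ∀ v, ‖vl c v‖ = 1) (n : (K →+* ℂ) → ℤ) (hx : ∀ x : K, Ray S N x → (((c (dv x)).toMul : ℂˣ) : ℂ) = ∏ σ : K →+* ℂ, σ x ^ n σ)
    (h2 : ∃ v ∉ S, vl c v ^ 2 ≠ 1) :
    Tendsto (fun x : ℕ => (∑ᶠ v ∈ {v : Pr K | Nm v ≤ x}, vl c v) / (Nat.primeCounting x : ℂ)) atTop (𝓝 0) :=
  hecke_c1 (fun S N => CFTZ.pray_fin S N) S N c hn n hx h2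

/-- THE PRIME NUMBER THEOREM FOR HECKE CHARACTERS, all nontrivial characters, if the L-function does not vanish at 1. -/
theorem hecke_pnt_ne (S : Finset (Pr K)) (N : ℕ) (c : Dv K →+ Additive ℂˣ)
    (hn : ∀ v, ‖vl c v‖ = 1) (n : (K →+* ℂ) → ℤ) (hx : ∀ x : K, Ray S N x → (((c (dv x)).toMul : ℂˣ) : ℂ) = ∏ σ : K →+* ℂ, σ x ^ n σ)
    (h1 : ∃ v ∉ S, vl c v ≠ 1) (hL : ∀ H : ℂ → ℂ, DifferentiableOn ℂ H (HP K) → (∀ s : ℂ, 1 < s.re → H s = Lc (CFTZ.chI S c) s) → H 1 ≠ 0) :
    Tendsto (fun x : ℕ => (∑ᶠ v ∈ {v : Pr K | Nm v ≤ x}, vl c v) / (Nat.primeCounting x : ℂ)) atTop (𝓝 0) :=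
  hecke_c2 (fun S N => CFTZ.pray_fin S N) S N c hn n hx h1 hL

end fin

end CFTC
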